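import Pool.Agent.H362O.Loc
import Pool.Agent.H362.Theta
import Pool.Agent.R277.JT.Tree

/-!
# Lipschitz quotient maps onto `ℓ₁` give octahedral pseudometrics; separability

(Helper file for MP_df3c4e_an.)
-/

set_option autoImplicit false

open Set Filter Topology Metric TopologicalSpace

namespace Pool.Agent.H362O

/-- Real `ℓ₁`. -/
abbrev L1 : Type := lp (fun _ : ℕ => ℝ) 1

lemma isPM_of_map {X : Type*} [PseudoMetricSpace X] (f : X → L1)
    (hf : ∀ x y, ‖f x - f y‖ ≤ dist x y) : IsPM (fun x y => ‖f x - f y‖) where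
  self x := by simp
  comm x y := norm_sub_rev _ _
  tri x y z := norm_sub_le_norm_sub_add_norm_sub _ _ _
  le_dist := hf

lemma octaLoc_of_map {X : Type*} [PseudoMetricSpace X] (f : X → L1)
    (hf : ∀ x y, ‖f x - f y‖ ≤ dist x y) {D : ℝ} (hD : 0 < D)
    (hco : ∀ x, ∀ ε > 0, ball (f x) (ε / D) ⊆ f '' ball x ε) :
    OctaLoc D (fun x y => ‖f x - f y‖) := by
  intro A hA x δ hδ D' hD'
  set D1 : ℝ := (D + D') / 2 with hD1
  have hDD1 : D < D1 := by rw [hD1]; linarith
  have hD1' : D1 < D' := by rw [hD1]; linarith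
  have hD10 : 0 < D1 := hD.trans hDD1
  have hD'0 : 0 < D' := hD.trans hD'
  set s : ℝ := δ / D1 with hs
  have hs0 : 0 < s := div_pos hδ hD10
  have hsδ : D1 * s = δ := by rw [hs]; field_simp
  set κ : ℝ := (s - D1 * s / D') / 2 with hκ
  have hκ0 : 0 < κ := by
    rw [hκ]
    have : D1 * s / D' < s := by
      rw [div_lt_iff₀ hD'0]; nlinarith
    linarith
  have hN : ∀ᶠ k in atTop, ∀ a ∈ A, |(f x - f a) k| < κ :=
    (eventually_all_finite hA).2 fun a _ => Pool.Agent.H362.coord_small (f x - f a) hκ0
  obtain ⟨N, hN⟩ := hN.exists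
  have hw : f x + lp.single 1 N s ∈ ball (f x) (D1 * s / D) := by
    rw [mem_ball_iff_norm, add_sub_cancel_left, Pool.Agent.H362.norm_single_L1, abs_of_pos hs0,
      lt_div_iff₀ hD]
    nlinarith
  obtain ⟨y, hy, hyw⟩ := hco x (D1 * s) (by positivity) hw
  rw [mem_ball, dist_comm] at hy
  refine ⟨y, ?_, by linarith, fun a ha => ?_⟩
  · have h1 := hf x y
    rw [hyw, sub_add_cancel_left, norm_neg, Pool.Agent.H362.norm_single_L1, abs_of_pos hs0] at h1
    linarith
  · have h1 := Pool.Agent.H362.norm_add_single (f x - f a) N s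
    have h2 := hN a ha
    have h3 : f y - f a = f x - f a + lp.single 1 N s := by rw [hyw]; abel
    change ‖f x - f a‖ + dist x y / D' ≤ ‖f y - f a‖
    rw [h3]
    rw [abs_of_pos hs0] at h1
    have h4 : dist x y / D' ≤ D1 * s / D' := div_le_div_of_nonneg_right hy.le hD'0.le
    linarith

instance : SeparableSpace L1 := by
  have h1 : IsSeparable ((Submodule.span ℝ (range fun n : ℕ => (lp.single 1 n (1 : ℝ) : L1)) :
      Submodule ℝ L1) : Set L1) := (countable_range _).isSeparable.span
  have h2 : closure ((Submodule.span ℝ (range fun n : ℕ => (lp.single 1 n (1 : ℝ) : L1)) :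
      Submodule ℝ L1) : Set L1) = univ := by
    rw [eq_univ_iff_forall]
    intro v
    have h3 := lp.hasSum_single (E := fun _ : ℕ => ℝ) (p := 1) ENNReal.one_ne_top v
    refine mem_closure_of_tendsto h3 (Eventually.of_forall fun F => ?_)
    refine Submodule.sum_mem _ fun i _ => ?_
    have : (lp.single 1 i (v i) : L1) = v i • (lp.single 1 i (1 : ℝ) : L1) := by
      rw [← lp.single_smul, smul_eq_mul, mul_one]
    change (lp.single 1 i (v i) : L1) ∈ _
    rw [this]
    exact Submodule.smul_mem _ _ (Submodule.subset_span ⟨i, rfl⟩)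
  have h3 := h1.closure
  rw [h2] at h3
  exact isSeparable_univ_iff.1 h3

instance : Countable Pool.Agent.R277.JT.Tree := inferInstanceAs (Countable (List Bool))

open Pool.Agent.R277.JT in
instance : SeparableSpace (Pre Tree) := by
  have h1 : IsSeparable ((Submodule.span ℝ (range fun n : Tree => (ev n : Pre Tree)) :
      Submodule ℝ (Pre Tree)) : Set (Pre Tree)) := (countable_range _).isSeparable.span
  have h2 : ((Submodule.span ℝ (range fun n : Tree => (ev n : Pre Tree)) :
      Submodule ℝ (Pre Tree)) : Set (Pre Tree)) = univ := by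
    rw [eq_univ_iff_forall]
    intro v
    change v ∈ Submodule.span ℝ (range fun n : Tree => (ev n : Pre Tree))
    refine Finsupp.induction_linear (motive := fun v : Tree →₀ ℝ =>
      (show Pre Tree from v) ∈ Submodule.span ℝ (range fun n : Tree => (ev n : Pre Tree)))
      (v : Tree →₀ ℝ) ?_ ?_ ?_
    · exact Submodule.zero_mem _
    · intro f g hf hg
      exact Submodule.add_mem _ hf hg
    · intro a b
      have : (show Pre Tree from (Finsupp.single a b : Tree →₀ ℝ)) = b • (ev a : Pre Tree) := by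
        change (Finsupp.single a b : Tree →₀ ℝ) = b • (Finsupp.single a (1 : ℝ) : Tree →₀ ℝ)
        rw [Finsupp.smul_single, smul_eq_mul, mul_one]
      rw [this]
      exact Submodule.smul_mem _ _ (Submodule.subset_span ⟨a, rfl⟩)
  rw [h2] at h1
  exact isSeparable_univ_iff.1 h1

end Pool.Agent.H362O
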