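import Pool.Agent.H362O.Scalar
import Pool.Agent.H362O.Conv

/-!
# Criteria for `ℓ₁` to be a Lipschitz quotient of a separable Banach space

(Helper file for MP_df3c4e_an.)
-/

set_option autoImplicit false

open Set Filter Topology Metric TopologicalSpace
open scoped NNReal

namespace Pool.Agent.H362O

variable {E : Type*} [NormedAddCommGroup E] [NormedSpace ℝ E] [CompleteSpace E] [SeparableSpace E]

lemma norm_of_lip {f : E → L1} (hf : LipschitzWith 1 f) (x y : E) : ‖f x - f y‖ ≤ dist x y := by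
  have := hf.dist_le_mul x y
  rwa [NNReal.coe_one, one_mul, dist_eq_norm] at this

/-- The quantitative criterion. -/
theorem quant (D : ℝ) (hD : 0 < D) :
    (∃ f : E → L1, LipschitzWith 1 f ∧ ∀ x, ∀ ε > 0, ball (f x) (ε / D) ⊆ f '' ball x ε) ↔
      ∃ ρ : E → E → ℝ, IsPM ρ ∧ OctaLoc D ρ := by
  constructor
  · rintro ⟨f, hf, hco⟩
    exact ⟨_, isPM_of_map f (norm_of_lip hf), octaLoc_of_map f (norm_of_lip hf) hD hco⟩
  · rintro ⟨ρ, hρ, h⟩
    obtain ⟨f, hf, hco⟩ := exists_quotient (Y := L1) hρ hD (h.octa hρ hD)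
    refine ⟨f, LipschitzWith.of_dist_le_mul fun x y => ?_, hco⟩
    rw [dist_eq_norm, NNReal.coe_one, one_mul]
    exact (hf x y).trans (hρ.le_dist x y)

omit [CompleteSpace E] [SeparableSpace E] in
/-- Normalizing a Lipschitz quotient map. -/
lemma normalize {f : E → L1} {K : ℝ≥0} (hf : LipschitzWith K f) {C : ℝ} (hC : 0 < C)
    (hco : ∀ x, ∀ ε > 0, ball (f x) (ε / C) ⊆ f '' ball x ε) :
    ∃ D > 0, ∃ g : E → L1, LipschitzWith 1 g ∧
      ∀ x, ∀ ε > 0, ball (g x) (ε / D) ⊆ g '' ball x ε := by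
  set L : ℝ := K + 1 with hL
  have hL0 : 0 < L := by have := K.2; rw [hL]; positivity
  have hKL : (K : ℝ) ≤ L := by rw [hL]; linarith
  refine ⟨L * C, mul_pos hL0 hC, fun x => L⁻¹ • f x, LipschitzWith.of_dist_le_mul fun x y => ?_,
    fun x ε hε w hw => ?_⟩
  · rw [dist_smul₀, NNReal.coe_one, one_mul, norm_inv, Real.norm_eq_abs, abs_of_pos hL0,
      inv_mul_le_iff₀ hL0]
    exact (hf.dist_le_mul x y).trans (mul_le_mul_of_nonneg_right hKL dist_nonneg)
  · have hw' : L • w ∈ ball (f x) (ε / C) := by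
      rw [mem_ball, dist_eq_norm] at hw ⊢
      have h1 : L • w - f x = L • (w - L⁻¹ • f x) := by
        rw [smul_sub, smul_smul, mul_inv_cancel₀ hL0.ne', one_smul]
      rw [h1, norm_smul, Real.norm_eq_abs, abs_of_pos hL0]
      calc L * ‖w - L⁻¹ • f x‖ < L * (ε / (L * C)) := mul_lt_mul_of_pos_left hw hL0
        _ = ε / C := by field_simp
    obtain ⟨y, hy, hyw⟩ := hco x ε hε hw'
    refine ⟨y, hy, ?_⟩
    change L⁻¹ • f y = w
    rw [hyw, smul_smul, inv_mul_cancel₀ hL0.ne', one_smul]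

lemma surj_of_co {X Y : Type*} [PseudoMetricSpace X] [Nonempty X] [PseudoMetricSpace Y]
    {f : X → Y} {C : ℝ} (hC : 0 < C)
    (hco : ∀ x, ∀ ε > 0, ball (f x) (ε / C) ⊆ f '' ball x ε) : Function.Surjective f := by
  intro w
  obtain ⟨x⟩ := ‹Nonempty X›
  obtain ⟨y, -, hy⟩ := hco x (C * (dist w (f x) + 1)) (by positivity)
    (show w ∈ ball (f x) (C * (dist w (f x) + 1) / C) by
      rw [mem_ball, mul_div_cancel_left₀ _ hC.ne']; linarith)
  exact ⟨y, hy⟩

/-- From an octahedral pseudometric to an infinitely splitting function. -/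
theorem splitsInf_of_octa {ρ : E → E → ℝ} (hρ : IsPM ρ) {D : ℝ} (hD : 0 < D)
    (h : OctaLoc D ρ) : ∃ P : E → ℝ, LipschitzWith 1 P ∧ SplitsInf (D + 1) P := by
  obtain ⟨ρ', P, hT, -, hm⟩ := exists_tree hρ hD (h.octa hρ hD)
  refine ⟨P, LipschitzWith.of_le_add fun x y => ?_, hm.splitsInf hT⟩
  have h1 := hT.lip x y
  have h2 := hT.pm.le_dist x y
  linarith

omit [SeparableSpace E] in
/-- From a splitting function to an octahedral pseudometric. -/
theorem octa_of_splits {P : E → ℝ} (hP : LipschitzWith 1 P) {C θ : ℝ} (hC : 0 < C)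
    (hθ0 : 0 ≤ θ) (hθ1 : θ < 1) (h : Splits C θ P) :
    ∃ ρ : E → E → ℝ, IsPM ρ ∧ OctaLoc (C * (C + 4) * (C * (C + 4) + 2)) ρ := by
  have hP' : ∀ x y, P x - P y ≤ dist x y := fun x y => by
    have h1 := hP.dist_le_mul x y
    rw [Real.dist_eq, NNReal.coe_one, one_mul] at h1
    exact (le_abs_self _).trans h1
  obtain ⟨ρ, h1, h2, h3⟩ := pair_of_splits hP' hC hθ0 hθ1 h
  exact ⟨ρ, h1, h3.octaLoc h1 h2 (by positivity)⟩

end Pool.Agent.H362O
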