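import Pool.Agent.H362O.Loc

/-!
# From octahedral pseudometrics to tree-like octahedral pseudometrics with a height function

(Helper file for MP_df3c4e_an.)
-/

set_option autoImplicit false

open Set Filter Topology Metric TopologicalSpace

namespace Pool.Agent.H362O

/-- Positive rationals, enumerated. -/
noncomputable def rr (j : ℕ) : ℝ := ((Nat.unpair j).1 + 1) / ((Nat.unpair j).2 + 1)

lemma rr_pos (j : ℕ) : 0 < rr j := by unfold rr; positivity

lemma exists_rr {α β : ℝ} (h0 : 0 ≤ α) (h : α < β) : ∃ j, α ≤ rr j ∧ rr j ≤ β := by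
  obtain ⟨q, hq1, hq2⟩ := exists_rat_btwn h
  have hq0 : (0 : ℝ) < q := by linarith
  have hq0' : 0 < q := by exact_mod_cast hq0
  have hnum : 0 < q.num := Rat.num_pos.2 hq0'
  refine ⟨Nat.pair (q.num.toNat - 1) (q.den - 1), ?_⟩
  have : rr (Nat.pair (q.num.toNat - 1) (q.den - 1)) = (q : ℝ) := by
    simp only [rr, Nat.unpair_pair]
    have h1 : ((q.num.toNat - 1 : ℕ) : ℝ) + 1 = (q.num : ℝ) := by
      have h2 : 1 ≤ q.num.toNat := by omega
      rw [Nat.cast_sub h2]
      have h3 : ((q.num.toNat : ℕ) : ℤ) = q.num := Int.toNat_of_nonneg hnum.le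
      have h4 : ((q.num.toNat : ℕ) : ℝ) = (q.num : ℝ) := by exact_mod_cast h3
      rw [h4]; simp
    have h2 : ((q.den - 1 : ℕ) : ℝ) + 1 = (q.den : ℝ) := by
      rw [Nat.cast_sub q.pos]; simp
    rw [h1, h2]
    exact (Rat.cast_def q).symm
  rw [this]
  exact ⟨hq1.le, hq2.le⟩

/-- Tree-like pseudometrics with a height function: `P x + P y - ρ x y` is twice the height of
the meet of `x` and `y`. -/
structure IsTree {X : Type*} [PseudoMetricSpace X] (ρ : X → X → ℝ) (P : X → ℝ) : Prop where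
  pm : IsPM ρ
  lip : ∀ x y, P x - P y ≤ ρ x y
  ultra : ∀ x y z, min (P x + P y - ρ x y) (P y + P z - ρ y z) ≤ P x + P z - ρ x z

lemma IsTree.hyp {X : Type*} [PseudoMetricSpace X] {ρ : X → X → ℝ} {P : X → ℝ}
    (h : IsTree ρ P) : Hyp ρ := by
  intro q x y z
  have h1 := four_of_ultra (fun x y => P x + P y - ρ x y)
    (fun x y => by rw [h.pm.comm x y]; ring) h.ultra x y z q
  unfold gp
  rcases min_le_iff.1 h1 with h1 | h1
  · apply min_le_iff.2; left; linarith
  · apply min_le_iff.2; right; linarith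

/-- Splitting of the superlevel sets of `P`, in terms of meets. -/
def MeetSplits {X : Type*} [PseudoMetricSpace X] (C : ℝ) (ρ : X → X → ℝ) (P : X → ℝ) : Prop :=
  ∀ x, ∀ δ > 0, ∃ r, 0 < r ∧ r < δ ∧ (∃ y0, dist x y0 ≤ C * r ∧ P y0 ≤ P x - r) ∧
    ∃ y : ℕ → X, (∀ i, dist x (y i) ≤ C * r ∧ P x + r ≤ P (y i)) ∧
      ∀ i j, i < j → P (y i) + P (y j) - ρ (y i) (y j) ≤ 2 * P x

open PathPt in
/-- An octahedral pseudometric on a complete separable space can be replaced by a tree-like one. -/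
theorem exists_tree {X : Type*} [PseudoMetricSpace X] [SeparableSpace X]
    [Nonempty X] {ρ : X → X → ℝ} (hρ : IsPM ρ) {D : ℝ} (hD : 0 < D) (hoct : Octa D ρ) :
    ∃ (ρ' : X → X → ℝ) (P : X → ℝ), IsTree ρ' P ∧ Octa D ρ' ∧ MeetSplits (D + 1) ρ' P := by
  classical
  set ξ : ℕ → X := denseSeq X with hξ
  have hξd : DenseRange ξ := denseRange_denseSeq X
  let St := {g : X → PathPt ℝ // ∀ z z', d (g z) (g z') ≤ ρ z z'} × List X
  let R : ℕ → St → St → Prop := fun k s s' =>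
    (∃ y y', s'.2 = s.2 ++ [ξ k, y, y'] ∧
      dist (s.2.getD (Nat.unpair (Nat.unpair k).1).1 (ξ 0)) y ≤
        (D + 1 / ((Nat.unpair (Nat.unpair (Nat.unpair k).1).2).2 + 1)) *
        rr (Nat.unpair (Nat.unpair (Nat.unpair k).1).2).1 ∧
      dist (s.2.getD (Nat.unpair (Nat.unpair k).1).1 (ξ 0)) y' ≤
        (D + 1 / ((Nat.unpair (Nat.unpair (Nat.unpair k).1).2).2 + 1)) *
        rr (Nat.unpair (Nat.unpair (Nat.unpair k).1).2).1 ∧
      (s'.1.1 y).len = (s.1.1 (s.2.getD (Nat.unpair (Nat.unpair k).1).1 (ξ 0))).len +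
        rr (Nat.unpair (Nat.unpair (Nat.unpair k).1).2).1 ∧
      (s.2.getD (Nat.unpair (Nat.unpair k).1).1 (ξ 0) ∈ s.2 →
        (s'.1.1 y').len = (s.1.1 (s.2.getD (Nat.unpair (Nat.unpair k).1).1 (ξ 0))).len -
        rr (Nat.unpair (Nat.unpair (Nat.unpair k).1).2).1) ∧
      ∀ a ∈ s.2, d (s.1.1 a) (s.1.1 (s.2.getD (Nat.unpair (Nat.unpair k).1).1 (ξ 0))) +
        rr (Nat.unpair (Nat.unpair (Nat.unpair k).1).2).1 ≤ d (s'.1.1 a) (s'.1.1 y)) ∧
    ∀ a ∈ s.2, s'.1.1 a = s.1.1 a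
  have hex : ∀ k (s : St), ∃ s' : St, R k s s' := by
    intro k s
    have hn : (0 : ℝ) < 1 / ((Nat.unpair (Nat.unpair (Nat.unpair k).1).2).2 + 1) := by positivity
    obtain ⟨g', hg', hL, y, hy1, hy2, hy3⟩ := stepFresh hρ hoct s.1.1 s.1.2 s.2
      (s.2.getD (Nat.unpair (Nat.unpair k).1).1 (ξ 0))
      (r := rr (Nat.unpair (Nat.unpair (Nat.unpair k).1).2).1) (rr_pos _)
      (D' := D + 1 / ((Nat.unpair (Nat.unpair (Nat.unpair k).1).2).2 + 1)) (by linarith)
    obtain ⟨g'', hg'', hL', y', hy'1, hy'2⟩ := stepDown hρ hoct g' hg' (s.2 ++ [y])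
      (s.2.getD (Nat.unpair (Nat.unpair k).1).1 (ξ 0))
      (r := rr (Nat.unpair (Nat.unpair (Nat.unpair k).1).2).1) (rr_pos _)
      (D' := D + 1 / ((Nat.unpair (Nat.unpair (Nat.unpair k).1).2).2 + 1)) (by linarith)
    have hgy : g'' y = g' y := hL' y (by simp)
    refine ⟨(⟨g'', hg''⟩, s.2 ++ [ξ k, y, y']), ⟨y, y', rfl, hy1, hy'1, ?_, fun hx => ?_,
      fun a ha => ?_⟩, fun a ha => ?_⟩
    · change (g'' y).len = _
      rw [hgy]; exact hy2
    · change (g'' y').len = _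
      rw [hy'2, hL _ hx]
    · change _ ≤ d (g'' a) (g'' y)
      rw [hgy, hL' a (List.mem_append_left _ ha)]; exact hy3 a ha
    · change g'' a = _
      rw [hL' a (List.mem_append_left _ ha), hL a ha]
  choose nx hnx using hex
  let s0 : St := (⟨fun _ => default, fun z z' => by rw [d_self]; exact hρ.nonneg z z'⟩, [])
  let S : ℕ → St := fun k => Nat.rec s0 nx k
  have hS : ∀ k, R k (S k) (S (k + 1)) := fun k => hnx k (S k)
  -- growth of the lists
  have hgrow : ∀ k m, k ≤ m → ∃ l, (S m).2 = (S k).2 ++ l := by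
    intro k m hkm
    induction m, hkm using Nat.le_induction with
    | base => exact ⟨[], by simp⟩
    | succ m _ ih =>
      obtain ⟨l, hl⟩ := ih
      obtain ⟨⟨y, y', hy, -⟩, -⟩ := hS m
      exact ⟨l ++ [ξ m, y, y'], by rw [hy, hl, List.append_assoc]⟩
  have hmem : ∀ k m, k ≤ m → ∀ a ∈ (S k).2, a ∈ (S m).2 := by
    intro k m hkm a ha
    obtain ⟨l, hl⟩ := hgrow k m hkm
    rw [hl]; exact List.mem_append_left _ ha
  have hfix : ∀ k m, k ≤ m → ∀ a ∈ (S k).2, (S m).1.1 a = (S k).1.1 a := by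
    intro k m hkm a ha
    induction m, hkm using Nat.le_induction with
    | base => rfl
    | succ m hm ih =>
      rw [(hS m).2 a (hmem k m hm a ha), ih]
  have hξmem : ∀ i, ξ i ∈ (S (i + 1)).2 := by
    intro i
    obtain ⟨⟨y, y', hy, -⟩, -⟩ := hS i
    rw [hy]; simp
  -- the limit pseudometric
  have hlip : ∀ k z z', d ((S k).1.1 z) ((S k).1.1 z') ≤ ρ z z' := fun k z z' => (S k).1.2 z z'
  have hcau : ∀ z : X × X, CauchySeq (fun k => d ((S k).1.1 z.1) ((S k).1.1 z.2)) := by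
    rintro ⟨z, w⟩
    simp only
    rw [Metric.cauchySeq_iff']
    intro ε hε
    obtain ⟨i, hi⟩ := hξd.exists_dist_lt z (show 0 < ε / 4 by linarith)
    obtain ⟨j, hj⟩ := hξd.exists_dist_lt w (show 0 < ε / 4 by linarith)
    refine ⟨max (i + 1) (j + 1), fun n hn => ?_⟩
    set N := max (i + 1) (j + 1) with hN
    have hiN : ξ i ∈ (S N).2 := hmem _ _ (le_max_left _ _) _ (hξmem i)
    have hjN : ξ j ∈ (S N).2 := hmem _ _ (le_max_right _ _) _ (hξmem j)
    have e1 := hfix N n hn _ hiN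
    have e2 := hfix N n hn _ hjN
    have key : ∀ k, |d ((S k).1.1 z) ((S k).1.1 w) - d ((S k).1.1 (ξ i)) ((S k).1.1 (ξ j))| <
        ε / 2 := by
      intro k
      have a1 := hlip k z (ξ i)
      have a2 := hlip k w (ξ j)
      have a3 := hρ.le_dist z (ξ i)
      have a4 := hρ.le_dist w (ξ j)
      have b1 := d_triangle ((S k).1.1 z) ((S k).1.1 (ξ i)) ((S k).1.1 w)
      have b2 := d_triangle ((S k).1.1 (ξ i)) ((S k).1.1 (ξ j)) ((S k).1.1 w)
      have b3 := d_triangle ((S k).1.1 (ξ i)) ((S k).1.1 z) ((S k).1.1 (ξ j))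
      have b4 := d_triangle ((S k).1.1 z) ((S k).1.1 w) ((S k).1.1 (ξ j))
      rw [d_comm ((S k).1.1 (ξ j)) ((S k).1.1 w)] at b2
      rw [d_comm ((S k).1.1 (ξ i)) ((S k).1.1 z)] at b3
      rw [abs_lt]; constructor <;> linarith
    have k1 := key n
    have k2 := key N
    rw [e1, e2] at k1
    rw [Real.dist_eq]
    rw [abs_lt] at k1 k2 ⊢
    constructor <;> linarith
  choose ρ'' hρ'' using fun z => cauchySeq_tendsto_of_complete (hcau z)
  let ρ' : X → X → ℝ := fun x y => ρ'' (x, y)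
  have ht : ∀ x y, Tendsto (fun k => d ((S k).1.1 x) ((S k).1.1 y)) atTop (𝓝 (ρ' x y)) :=
    fun x y => hρ'' (x, y)
  -- the limit height
  have hcau2 : ∀ z : X, CauchySeq (fun k => ((S k).1.1 z).len) := by
    intro z
    rw [Metric.cauchySeq_iff']
    intro ε hε
    obtain ⟨i, hi⟩ := hξd.exists_dist_lt z (show 0 < ε / 2 by linarith)
    refine ⟨i + 1, fun n hn => ?_⟩
    have key : ∀ k, |((S k).1.1 z).len - ((S k).1.1 (ξ i)).len| < ε / 2 := by
      intro k
      have a1 := hlip k z (ξ i)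
      have a3 := hρ.le_dist z (ξ i)
      have b1 := len_le ((S k).1.1 z) ((S k).1.1 (ξ i))
      have b2 := len_le ((S k).1.1 (ξ i)) ((S k).1.1 z)
      rw [d_comm ((S k).1.1 (ξ i)) ((S k).1.1 z)] at b2
      rw [abs_lt]; constructor <;> linarith
    have e1 := hfix (i + 1) n hn _ (hξmem i)
    have k1 := key n
    have k2 := key (i + 1)
    rw [e1] at k1
    rw [Real.dist_eq]
    rw [abs_lt] at k1 k2 ⊢
    constructor <;> linarith
  choose P hP using fun z => cauchySeq_tendsto_of_complete (hcau2 z)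
  have hPM : IsPM ρ' := by
    refine ⟨fun x => ?_, fun x y => ?_, fun x y z => ?_, fun x y => ?_⟩
    · refine tendsto_nhds_unique (ht x x) ?_
      simp only [d_self]; exact tendsto_const_nhds
    · refine tendsto_nhds_unique (ht x y) ((ht y x).congr fun k => d_comm _ _)
    · exact le_of_tendsto_of_tendsto' (ht x z) ((ht x y).add (ht y z)) fun k => d_triangle _ _ _
    · exact le_of_tendsto (ht x y) (Eventually.of_forall fun k =>
        (hlip k x y).trans (hρ.le_dist x y))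
  have hTree : IsTree ρ' P := by
    refine ⟨hPM, fun x y => ?_, fun x y z => ?_⟩
    · exact le_of_tendsto_of_tendsto' ((hP x).sub (hP y)) (ht x y) fun k => len_le _ _
    · have t1 := ((hP x).add (hP y)).sub (ht x y)
      have t2 := ((hP y).add (hP z)).sub (ht y z)
      have t3 := ((hP x).add (hP z)).sub (ht x z)
      refine le_of_tendsto_of_tendsto' (t1.min t2) t3 fun k => ?_
      have h1 := ag_ultra ((S k).1.1 x) ((S k).1.1 y) ((S k).1.1 z)
      have h2 : ∀ u v : PathPt ℝ, u.len + v.len - d u v = 2 * ag u v := fun u v => by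
        unfold d; ring
      rw [h2, h2, h2]
      rcases min_le_iff.1 h1 with h1 | h1
      · apply min_le_iff.2; left; linarith
      · apply min_le_iff.2; right; linarith
  have hval : ∀ k, ∀ a ∈ (S k).2, ∀ b ∈ (S k).2, ρ' a b = d ((S k).1.1 a) ((S k).1.1 b) := by
    intro k a ha b hb
    refine tendsto_nhds_unique (ht a b) ?_
    refine tendsto_const_nhds.congr' ?_
    filter_upwards [eventually_ge_atTop k] with m hm
    rw [hfix k m hm a ha, hfix k m hm b hb]
  have hvalP : ∀ k, ∀ a ∈ (S k).2, P a = ((S k).1.1 a).len := by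
    intro k a ha
    refine tendsto_nhds_unique (hP a) ?_
    refine tendsto_const_nhds.congr' ?_
    filter_upwards [eventually_ge_atTop k] with m hm
    rw [hfix k m hm a ha]
  -- steps within the union of the lists
  have hstep : ∀ k0, ∀ a ∈ (S k0).2, ∀ j n : ℕ, ∃ k1, k0 ≤ k1 ∧ ∃ y ∈ (S k1).2, ∃ y' ∈ (S k1).2,
      dist a y ≤ (D + 1 / ((n : ℝ) + 1)) * rr j ∧ dist a y' ≤ (D + 1 / ((n : ℝ) + 1)) * rr j ∧
      P y = P a + rr j ∧ P y' = P a - rr j ∧ ∀ b ∈ (S k0).2, ρ' b a + rr j ≤ ρ' b y := by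
    intro k0 a ha j n
    obtain ⟨l, hl, hla⟩ := List.getElem_of_mem ha
    set k := Nat.pair (Nat.pair l (Nat.pair j n)) k0 with hk
    have hk0 : k0 ≤ k := Nat.right_le_pair _ _
    obtain ⟨⟨y, y', hy1, hy2, hy2', hyP, hyP', hy3⟩, -⟩ := hS k
    obtain ⟨l', hl'⟩ := hgrow k0 k hk0
    have e1 : (Nat.unpair (Nat.unpair k).1).1 = l := by
      rw [hk, Nat.unpair_pair]; simp only; rw [Nat.unpair_pair]
    have e2 : (Nat.unpair (Nat.unpair (Nat.unpair k).1).2).1 = j := by
      rw [hk, Nat.unpair_pair]; simp only; rw [Nat.unpair_pair]; simp only; rw [Nat.unpair_pair]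
    have e3 : (Nat.unpair (Nat.unpair (Nat.unpair k).1).2).2 = n := by
      rw [hk, Nat.unpair_pair]; simp only; rw [Nat.unpair_pair]; simp only; rw [Nat.unpair_pair]
    have e4 : (S k).2.getD l (ξ 0) = a := by
      rw [hl', List.getD_append _ _ _ _ hl, List.getD_eq_getElem _ _ hl, hla]
    rw [e1, e2, e3, e4] at hy2 hy2'
    rw [e1, e2, e4] at hyP hyP'
    rw [e1, e2, e4] at hy3
    have hyS : y ∈ (S (k + 1)).2 := by rw [hy1]; simp
    have hyS' : y' ∈ (S (k + 1)).2 := by rw [hy1]; simp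
    have hak := hmem k0 k hk0 a ha
    refine ⟨k + 1, hk0.trans (Nat.le_succ k), y, hyS, y', hyS', hy2, hy2', ?_, ?_, fun b hb => ?_⟩
    · rw [hvalP k a hak, hvalP (k + 1) y hyS]; exact hyP
    · rw [hvalP k a hak, hvalP (k + 1) y' hyS']; exact hyP' hak
    · have hbk := hmem k0 k hk0 b hb
      rw [hval k b hbk a hak, hval (k + 1) b (hmem k (k + 1) (Nat.le_succ k) b hbk) y hyS]
      exact hy3 b hbk
  refine ⟨ρ', P, hTree, ?_, ?_⟩
  · intro A hA x r hr D' hD'
    have hD'0 : 0 < D' := hD.trans hD'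
    -- small constant
    set e : ℝ := min 1 ((D' - D) * r / (1 + 6 * (D + 1) + r + 1)) with he
    have hden : 0 < 1 + 6 * (D + 1) + r + 1 := by linarith
    have he0 : 0 < e := lt_min one_pos (div_pos (mul_pos (by linarith) hr) hden)
    have he1 : e ≤ 1 := min_le_left _ _
    have he2 : e * (1 + 6 * (D + 1) + r + 1) ≤ (D' - D) * r := by
      have : e ≤ (D' - D) * r / (1 + 6 * (D + 1) + r + 1) := min_le_right _ _
      rwa [le_div_iff₀ hden] at this
    choose ι hι using fun a : X => hξd.exists_dist_lt a he0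
    obtain ⟨K, hK⟩ : ∃ K, ∀ a ∈ insert x A, ι a + 1 ≤ K := by
      obtain ⟨M, hM⟩ := ((hA.insert x).image ι).bddAbove
      exact ⟨M + 1, fun a ha => Nat.succ_le_succ (hM ⟨a, ha, rfl⟩)⟩
    have hKm : ∀ a ∈ insert x A, ξ (ι a) ∈ (S K).2 := fun a ha => hmem _ _ (hK a ha) _ (hξmem _)
    obtain ⟨j, hj1, hj2⟩ := exists_rr (show 0 ≤ r + 4 * e by linarith)
      (show r + 4 * e < r + 5 * e by linarith)
    obtain ⟨n, hn⟩ := exists_nat_one_div_lt he0
    obtain ⟨-, -, y, -, -, -, hy1, -, -, -, hy2⟩ :=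
      hstep K (ξ (ι x)) (hKm x (mem_insert _ _)) j n
    refine ⟨y, ?_, fun a ha => ?_⟩
    · have h1 := dist_triangle x (ξ (ι x)) y
      have h2 := hι x
      have h3 : (0 : ℝ) < 1 / ((n : ℝ) + 1) := by positivity
      have h4 : (D + 1 / ((n : ℝ) + 1)) * rr j ≤ (D + e) * (r + 5 * e) :=
        mul_le_mul (by linarith) hj2 (rr_pos j).le (by linarith)
      nlinarith
    · have h1 := hy2 (ξ (ι a)) (hKm a (mem_insert_of_mem _ ha))
      have h2 := hPM.tri (ξ (ι a)) a y
      have h3 := hPM.le_dist a (ξ (ι a))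
      have h4 := hι a
      have h5 := hPM.tri x (ξ (ι x)) a
      have h6 := hPM.tri (ξ (ι x)) (ξ (ι a)) a
      have h7 := hPM.le_dist x (ξ (ι x))
      have h8 := hι x
      rw [hPM.comm (ξ (ι a)) a, hPM.comm a y] at h2
      rw [hPM.comm (ξ (ι a)) a, hPM.comm (ξ (ι x)) (ξ (ι a))] at h6
      linarith
  · intro x δ hδ
    obtain ⟨j2, hR1, hR2⟩ := exists_rr (show 0 ≤ δ / 4 by linarith)
      (show δ / 4 < δ / 2 by linarith)
    set R' := rr j2 with hR'
    have hR0 : 0 < R' := rr_pos j2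
    have hD1 : 0 < 10 * (D + 1) := by linarith
    set e : ℝ := R' / (10 * (D + 1)) with he
    have he0 : 0 < e := div_pos hR0 hD1
    have heR : e * (10 * (D + 1)) = R' := by rw [he]; field_simp
    obtain ⟨j1, hj1, hj1'⟩ := exists_rr he0.le (show e < 2 * e by linarith)
    obtain ⟨i, hi⟩ := hξd.exists_dist_lt x he0
    have h12 : (1 : ℝ) / (((1 : ℕ) : ℝ) + 1) = 1 / 2 := by norm_num
    obtain ⟨k1, hk1, -, -, x', hx', -, hx'd, -, hx'P, -⟩ := hstep (i + 1) (ξ i) (hξmem i) j1 1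
    obtain ⟨-, -, -, -, y0, -, -, hy0d, -, hy0P, -⟩ := hstep (i + 1) (ξ i) (hξmem i) j2 1
    have hs : ∀ k, ∃ k', k1 ≤ k → (k ≤ k' ∧ ∃ y ∈ (S k').2, dist x' y ≤ (D + 1 / 2) * R' ∧
        P y = P x' + R' ∧ ∀ b ∈ (S k).2, ρ' b x' + R' ≤ ρ' b y) := by
      intro k
      by_cases hk : k1 ≤ k
      · obtain ⟨k', hk', y, hy, -, -, h1, -, h2, -, h3⟩ := hstep k x' (hmem k1 k hk x' hx') j2 1
        rw [h12] at h1
        exact ⟨k', fun _ => ⟨hk', y, hy, h1, h2, h3⟩⟩
      · exact ⟨k, fun h => absurd h hk⟩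
    choose nk hnk using hs
    set K : ℕ → ℕ := fun i => Nat.rec k1 (fun _ k => nk k) i with hK
    have hKs : ∀ i, K (i + 1) = nk (K i) := fun i => rfl
    have hK1 : ∀ i, k1 ≤ K i := by
      intro i
      induction i with
      | zero => exact le_rfl
      | succ i ih => rw [hKs]; exact ih.trans (hnk (K i) ih).1
    have hKmono : Monotone K := monotone_nat_of_le_succ fun i => by
      rw [hKs]; exact (hnk (K i) (hK1 i)).1
    have hy : ∀ i, ∃ y ∈ (S (K (i + 1))).2, dist x' y ≤ (D + 1 / 2) * R' ∧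
        P y = P x' + R' ∧ ∀ b ∈ (S (K i)).2, ρ' b x' + R' ≤ ρ' b y := fun i => by
      rw [hKs]; exact (hnk (K i) (hK1 i)).2
    choose y hyS hyd hyP hym using hy
    rw [h12] at hx'd hy0d
    have hPx := hTree.lip x (ξ i)
    have hPx' := hTree.lip (ξ i) x
    rw [hPM.comm (ξ i) x] at hPx'
    have hle := hPM.le_dist x (ξ i)
    rw [← hR'] at hy0d hy0P
    have t0 := dist_triangle x (ξ i) y0
    have t3 := dist_triangle x (ξ i) x'
    have hprod : (D + 1 / 2) * rr j1 ≤ (D + 1 / 2) * (2 * e) :=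
      mul_le_mul_of_nonneg_left hj1' (by linarith)
    have hDe : 0 < D * e := mul_pos hD he0
    have heR' : R' = 10 * (D * e) + 10 * e := by rw [← heR]; ring
    clear_value R' e K
    refine ⟨R' - 3 * e, ?_, ?_, ⟨y0, ?_, ?_⟩, y, fun m => ⟨?_, ?_⟩, fun m m' hmm' => ?_⟩
    · linarith
    · linarith
    · linarith
    · linarith
    · have t1 := dist_triangle x x' (y m)
      have t2 := hyd m
      linarith
    · have := hyP m
      linarith
    · have h1 : y m ∈ (S (K m')).2 := hmem _ _ (hKmono hmm') _ (hyS m)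
      have h2 := hym m' (y m) h1
      have h3 := hyP m'
      have h4 := hTree.lip (y m) x'
      linarith

end Pool.Agent.H362O
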