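import Pool.Agent.H362O.Quot

/-!
# Octahedrality at small scales gives octahedrality at all scales

(Helper file for MP_df3c4e_an.)
-/

set_option autoImplicit false

open Set Filter Topology Metric

namespace Pool.Agent.H362O

/-- Octahedrality at arbitrarily small scales. -/
def OctaLoc {X : Type*} [PseudoMetricSpace X] (D : ℝ) (ρ : X → X → ℝ) : Prop :=
  ∀ A : Set X, A.Finite → ∀ x : X, ∀ δ > 0, ∀ D' > D,
    ∃ y : X, 0 < dist x y ∧ dist x y < δ ∧ ∀ a ∈ A, ρ x a + dist x y / D' ≤ ρ y a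

lemma near_max {α : Type*} (E : Set α) (φ : α → ℝ) (hE : E.Nonempty) (h0 : ∀ z ∈ E, 0 ≤ φ z)
    {M : ℝ} (hM : ∀ z ∈ E, φ z ≤ M) : ∃ z ∈ E, ∀ y ∈ E, φ y ≤ 2 * φ z := by
  have hne : (φ '' E).Nonempty := hE.image φ
  have hbd : BddAbove (φ '' E) := ⟨M, by rintro _ ⟨z, hz, rfl⟩; exact hM z hz⟩
  have hle : ∀ y ∈ E, φ y ≤ sSup (φ '' E) := fun y hy => le_csSup hbd ⟨y, hy, rfl⟩
  rcases le_or_gt (sSup (φ '' E)) 0 with h | h
  · obtain ⟨z, hz⟩ := hE
    refine ⟨z, hz, fun y hy => ?_⟩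
    have h1 := hle y hy
    have h2 := h0 z hz
    linarith
  · obtain ⟨_, ⟨z, hz, rfl⟩, hz'⟩ := exists_lt_of_lt_csSup hne (half_lt_self h)
    refine ⟨z, hz, fun y hy => ?_⟩
    have h1 := hle y hy
    linarith

/-- Climbing lemma: small steps add up, inside a set `W` which small steps do not leave. -/
theorem climb {X : Type*} [PseudoMetricSpace X] [CompleteSpace X] {α : Type*} {φ : α → X → ℝ}
    (hφ : ∀ a x y, φ a x - φ a y ≤ dist x y) {A : Set α} (hA : A.Finite) (hne : A.Nonempty)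
    {W : Set X} {κ : ℝ} (hκ : 0 < κ)
    (hW : ∀ z ∈ W, ∀ y, (∀ a ∈ A, φ a z ≤ φ a y) → dist z y < κ → y ∈ W) {D1 : ℝ} (hD10 : 0 < D1)
    (h : ∀ z ∈ W, ∀ δ > 0, ∃ y, 0 < dist z y ∧ dist z y < δ ∧
      ∀ a ∈ A, φ a z + dist z y / D1 ≤ φ a y)
    {D' : ℝ} (hD1' : D1 < D') {x : X} (hx : x ∈ W) {r : ℝ} (hr : 0 < r) :
    ∃ y ∈ W, dist x y ≤ D' * r ∧ ∀ a ∈ A, φ a x + r ≤ φ a y := by
  obtain ⟨a0, ha0⟩ := hne
  by_contra hcon
  push Not at hcon
  -- constants
  set δ : ℝ := min κ ((D' - D1) * r) with hδ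
  have hδ0 : 0 < δ := lt_min hκ (mul_pos (by linarith) hr)
  have hδκ : δ ≤ κ := min_le_left _ _
  have hδr : δ ≤ (D' - D1) * r := min_le_right _ _
  -- the order
  let Le : X → X → Prop := fun z y => ∀ a ∈ A, dist z y ≤ D1 * (φ a y - φ a z)
  have Le_refl : ∀ z, Le z z := fun z a _ => by rw [dist_self, sub_self, mul_zero]
  have Le_trans : ∀ z y w, Le z y → Le y w → Le z w := by
    intro z y w h1 h2 a ha
    have e1 := h1 a ha
    have e2 := h2 a ha
    have e3 := dist_triangle z y w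
    linarith
  have Le_le : ∀ z y, Le z y → ∀ a ∈ A, φ a z ≤ φ a y := by
    intro z y h1 a ha
    have e2 : 0 ≤ D1 * (φ a y - φ a z) := dist_nonneg.trans (h1 a ha)
    have := (mul_nonneg_iff_of_pos_left hD10).1 e2
    linarith
  let B : Set X := {y | (y ∈ W ∧ Le x y) ∧ ¬ ∀ a ∈ A, φ a x + r ≤ φ a y}
  have hBd : ∀ y ∈ B, dist x y ≤ D1 * r := by
    rintro y ⟨h1, h2⟩
    push Not at h2
    obtain ⟨a, ha, h3⟩ := h2
    refine (h1.2 a ha).trans (mul_le_mul_of_nonneg_left (by linarith) hD10.le)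
  -- steps stay in `B`
  have hB : ∀ z ∈ B, ∀ y, Le z y → dist z y < δ → y ∈ B := by
    intro z hz y hzy hd
    have hyW : y ∈ W := hW z hz.1.1 y (Le_le z y hzy) (hd.trans_le hδκ)
    refine ⟨⟨hyW, Le_trans x z y hz.1.2 hzy⟩, fun hP => ?_⟩
    have e1 := hBd z hz
    have e2 := dist_triangle x z y
    obtain ⟨a, ha, h3⟩ := hcon y hyW (by nlinarith)
    exact absurd (hP a ha) (not_le.2 h3)
  have hxB : x ∈ B := ⟨⟨hx, Le_refl x⟩, fun hP => by have := hP a0 ha0; linarith⟩
  have hnear : ∀ z ∈ B, ∃ z' ∈ B, Le z z' ∧ ∀ y ∈ B, Le z y → dist z y ≤ 2 * dist z z' := by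
    intro z hz
    obtain ⟨z', hz', hmax⟩ := near_max {y | y ∈ B ∧ Le z y} (fun y => dist z y)
      ⟨z, hz, Le_refl z⟩ (fun _ _ => dist_nonneg) (M := 2 * (D1 * r)) (fun y hy => by
        have e1 := hBd z hz
        have e2 := hBd y hy.1
        have e3 := dist_triangle_left z y x
        linarith)
    exact ⟨z', hz'.1, hz'.2, fun y hy hzy => hmax y ⟨hy, hzy⟩⟩
  choose! nx hnB hnLe hnmax using hnear
  set s : ℕ → X := fun n => Nat.rec x (fun _ z => nx z) n with hs
  have hs0 : s 0 = x := rfl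
  have hss : ∀ n, s (n + 1) = nx (s n) := fun n => rfl
  have hsB : ∀ n, s n ∈ B := by
    intro n
    induction n with
    | zero => exact hxB
    | succ n ih => rw [hss]; exact hnB _ ih
  have hsLe : ∀ n m, n ≤ m → Le (s n) (s m) := by
    intro n m hnm
    induction m, hnm using Nat.le_induction with
    | base => exact Le_refl _
    | succ m _ ih => exact Le_trans _ _ _ ih (by rw [hss]; exact hnLe _ (hsB m))
  have hmono : ∀ a ∈ A, ∀ n m, n ≤ m → φ a (s n) ≤ φ a (s m) := fun a ha n m hnm =>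
    Le_le _ _ (hsLe n m hnm) a ha
  obtain ⟨a, ha, hab⟩ : ∃ a ∈ A, ∀ n, φ a (s n) < φ a x + r := by
    by_contra hc
    push Not at hc
    have h1 : ∀ a ∈ A, ∀ᶠ m in atTop, φ a x + r ≤ φ a (s m) := by
      intro a ha
      obtain ⟨n, hn⟩ := hc a ha
      filter_upwards [eventually_ge_atTop n] with m hm
      exact hn.trans (hmono a ha n m hm)
    have h2 := (eventually_all_finite hA).2 h1
    obtain ⟨m, hm⟩ := h2.exists
    exact (hsB m).2 hm
  -- convergence
  have hbmono : Monotone fun n => φ a (s n) := fun n m hnm => hmono a ha n m hnm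
  have hbbd : BddAbove (range fun n => φ a (s n)) :=
    ⟨φ a x + r, by rintro _ ⟨n, rfl⟩; exact (hab n).le⟩
  have hbt := tendsto_atTop_ciSup hbmono hbbd
  have hbc := hbt.cauchySeq
  have hcau : CauchySeq s := by
    rw [Metric.cauchySeq_iff'] at hbc ⊢
    intro ε hε
    obtain ⟨N, hN⟩ := hbc (ε / D1) (div_pos hε hD10)
    refine ⟨N, fun n hn => ?_⟩
    have e1 := hN n hn
    rw [Real.dist_eq, lt_div_iff₀ hD10] at e1
    have e2 := hsLe N n hn a ha
    rw [dist_comm]
    have e3 := le_abs_self (φ a (s n) - φ a (s N))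
    nlinarith
  obtain ⟨z, hz⟩ := cauchySeq_tendsto_of_complete hcau
  have hρt : ∀ b, Tendsto (fun n => φ b (s n)) atTop (𝓝 (φ b z)) := by
    intro b
    rw [tendsto_iff_dist_tendsto_zero]
    have hz' := tendsto_iff_dist_tendsto_zero.1 hz
    refine squeeze_zero (fun _ => dist_nonneg) (fun n => ?_) hz'
    rw [Real.dist_eq, abs_le]
    have e1 := hφ b (s n) z
    have e2 := hφ b z (s n)
    rw [dist_comm] at e2
    constructor <;> linarith
  have hzLe : ∀ n, Le (s n) z := by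
    intro n b hb
    have t1 : Tendsto (fun m => dist (s n) (s m)) atTop (𝓝 (dist (s n) z)) :=
      tendsto_const_nhds.dist hz
    have t2 : Tendsto (fun m => D1 * (φ b (s m) - φ b (s n))) atTop
        (𝓝 (D1 * (φ b z - φ b (s n)))) := ((hρt b).sub_const _).const_mul _
    refine le_of_tendsto_of_tendsto t1 t2 ?_
    filter_upwards [eventually_ge_atTop n] with m hm
    exact hsLe n m hm b hb
  have hzW : z ∈ W := by
    have h1 : ∀ᶠ n in atTop, dist (s n) z < κ := Metric.tendsto_nhds.1 hz κ hκ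
    obtain ⟨n, hn⟩ := h1.exists
    exact hW (s n) (hsB n).1.1 z (Le_le _ _ (hzLe n)) hn
  have hzB : z ∈ B := by
    refine ⟨⟨hzW, hzLe 0⟩, fun hP => ?_⟩
    have e1 := hzLe 0 a ha
    rw [hs0] at e1
    have e2 : φ a z ≤ φ a x + r := le_of_tendsto (hρt a) (Eventually.of_forall fun n => (hab n).le)
    obtain ⟨b, hb, h3⟩ := hcon z hzW (by nlinarith)
    exact absurd (hP b hb) (not_le.2 h3)
  obtain ⟨y, hy0, hyδ, hyA⟩ := h z hzW δ hδ0
  have hzy : Le z y := by
    intro b hb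
    have e1 := hyA b hb
    have e2 : dist z y / D1 ≤ φ b y - φ b z := by linarith
    rw [div_le_iff₀ hD10] at e2
    linarith
  have hyB : y ∈ B := hB z hzB y hzy hyδ
  have hlim : dist z y ≤ 0 := by
    have t1 : Tendsto (fun n => dist (s n) y) atTop (𝓝 (dist z y)) := hz.dist tendsto_const_nhds
    have t2 : Tendsto (fun n => 2 * dist (s n) (s (n + 1))) atTop (𝓝 (2 * dist z z)) :=
      (hz.dist (hz.comp (tendsto_add_atTop_nat 1))).const_mul 2
    rw [dist_self, mul_zero] at t2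
    refine le_of_tendsto_of_tendsto' t1 t2 fun n => ?_
    rw [hss]
    exact hnmax (s n) (hsB n) y hyB (Le_trans _ _ _ (hzLe n) hzy)
  linarith

lemma IsPM.sub_le {X : Type*} [PseudoMetricSpace X] {ρ : X → X → ℝ} (h : IsPM ρ)
    (a x y : X) : ρ x a - ρ y a ≤ dist x y :=
  (le_abs_self _).trans ((h.abs_sub_le x y a).trans (h.le_dist x y))

theorem OctaLoc.octa {X : Type*} [PseudoMetricSpace X] [CompleteSpace X] {ρ : X → X → ℝ}
    (hρ : IsPM ρ) {D : ℝ} (hD : 0 < D) (h : OctaLoc D ρ) : Octa D ρ := by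
  intro A hA x r hr D' hD'
  rcases A.eq_empty_or_nonempty with rfl | hne
  · refine ⟨x, ?_, fun a ha => absurd ha (Set.notMem_empty a)⟩
    rw [dist_self]
    exact mul_nonneg (by linarith) hr.le
  · obtain ⟨y, -, h1, h2⟩ := climb (φ := fun a x => ρ x a) (fun a x y => hρ.sub_le a x y) hA hne
      (W := univ) one_pos (fun _ _ _ _ _ => mem_univ _)
      (D1 := (D + D') / 2) (by linarith) (fun z _ δ hδ => h A hA z δ hδ _ (by linarith))
      (D' := D') (by linarith) (mem_univ x) hr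
    exact ⟨y, h1, h2⟩

/-- Twice the Gromov product. -/
def gp {X : Type*} (ρ : X → X → ℝ) (q x y : X) : ℝ := ρ q x + ρ q y - ρ x y

/-- The four point condition (`0`-hyperbolicity). -/
def Hyp {X : Type*} (ρ : X → X → ℝ) : Prop :=
  ∀ q x y z, min (gp ρ q x y) (gp ρ q y z) ≤ gp ρ q x z

/-- Octahedrality with respect to pairs, at arbitrarily small scales. -/
def PairLoc {X : Type*} [PseudoMetricSpace X] (C : ℝ) (ρ : X → X → ℝ) : Prop :=
  ∀ x a b : X, ∀ δ > 0, ∀ D' > C, ∃ y : X, 0 < dist x y ∧ dist x y < δ ∧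
    ρ x a + dist x y / D' ≤ ρ y a ∧ ρ x b + dist x y / D' ≤ ρ y b

lemma finite_pos_bound {S : Set ℝ} (hS : S.Finite) : ∃ η > 0, ∀ s ∈ S, 0 < s → η ≤ s := by
  induction S, hS using Set.Finite.induction_on with
  | empty => exact ⟨1, one_pos, fun s hs => absurd hs (Set.notMem_empty s)⟩
  | @insert a S _ _ ih =>
    obtain ⟨η, hη, h⟩ := ih
    rcases le_or_gt a 0 with ha | ha
    · refine ⟨η, hη, fun s hs h0 => ?_⟩
      rcases hs with rfl | hs
      · exact absurd h0 (not_lt.2 ha)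
      · exact h s hs h0
    · refine ⟨min η a, lt_min hη ha, fun s hs h0 => ?_⟩
      rcases hs with rfl | hs
      · exact min_le_right _ _
      · exact (min_le_left _ _).trans (h s hs h0)

/-- For tree-like pseudometrics, octahedrality for pairs implies octahedrality. -/
theorem PairLoc.octaLoc {X : Type*} [PseudoMetricSpace X] [CompleteSpace X] {ρ : X → X → ℝ}
    (hρ : IsPM ρ) (hyp : Hyp ρ) {C : ℝ} (hC : 0 < C) (h : PairLoc C ρ) :
    OctaLoc (C * (C + 2)) ρ := by
  intro A hA x δ hδ D' hD'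
  have hCC : 0 < C * (C + 2) := by positivity
  have hD'0 : 0 < D' := hCC.trans hD'
  -- constants
  set ε : ℝ := min 1 ((D' - C * (C + 2)) / (2 * C + 3)) with hε
  have hε0 : 0 < ε := lt_min one_pos (div_pos (by linarith) (by linarith))
  have hε1 : ε ≤ 1 := min_le_left _ _
  have hε2 : ε * (2 * C + 3) ≤ D' - C * (C + 2) := by
    have : ε ≤ (D' - C * (C + 2)) / (2 * C + 3) := min_le_right _ _
    rwa [le_div_iff₀ (by linarith)] at this
  set C1 : ℝ := C + ε with hC1
  have hCC1 : C < C1 := by linarith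
  have hC10 : 0 < C1 := by linarith
  have hC1D : C1 * (C1 + 2) ≤ D' := by rw [hC1]; nlinarith
  have hKpos : 0 < C1 * (C1 + 2) := by positivity
  obtain ⟨η, hη, hηA⟩ := finite_pos_bound ((hA.prod hA).image fun p : X × X => gp ρ x p.1 p.2)
  have hηA' : ∀ a ∈ A, ∀ b ∈ A, 0 < gp ρ x a b → η ≤ gp ρ x a b := fun a ha b hb =>
    hηA _ ⟨(a, b), ⟨ha, hb⟩, rfl⟩
  set r : ℝ := min δ (η / 2) / (2 * (C1 * (C1 + 2))) with hr
  have hmin : 0 < min δ (η / 2) := lt_min hδ (by linarith)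
  have hr0 : 0 < r := div_pos hmin (by positivity)
  have hrK : C1 * (C1 + 2) * r = min δ (η / 2) / 2 := by rw [hr]; field_simp
  have hrδ : C1 * (C1 + 2) * r < δ := by
    rw [hrK]; have := min_le_left δ (η / 2); linarith
  have hrη : 2 * (C1 * (C1 + 2) * r) < η := by
    rw [hrK]; have := min_le_right δ (η / 2); linarith
  -- climbing with respect to a pair
  have hpair : ∀ b : X, ∀ W : Set X, ∀ κ > 0,
      (∀ z ∈ W, ∀ y, (∀ a ∈ ({x, b} : Set X), ρ z a ≤ ρ y a) → dist z y < κ → y ∈ W) →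
      ∀ z ∈ W, ∀ t > 0, ∃ y ∈ W, dist z y ≤ C1 * t ∧ ρ z x + t ≤ ρ y x ∧ ρ z b + t ≤ ρ y b := by
    intro b W κ hκ hW z hz t ht
    obtain ⟨y, hyW, h1, h2⟩ := climb (φ := fun a x => ρ x a) (fun a x y => hρ.sub_le a x y)
      (A := {x, b}) ((finite_singleton b).insert x)
      ⟨x, mem_insert _ _⟩ hκ hW (D1 := (C + C1) / 2) (by linarith) (fun z _ δ' hδ' => by
        obtain ⟨y, hy1, hy2, hy3, hy4⟩ := h z x b δ' hδ' ((C + C1) / 2) (by linarith)
        refine ⟨y, hy1, hy2, fun a ha => ?_⟩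
        rcases ha with rfl | ha
        · exact hy3
        · rw [mem_singleton_iff] at ha; rw [ha]; exact hy4) (D' := C1) (by linarith) hz ht
    exact ⟨y, hyW, h1, h2 x (mem_insert _ _), h2 b (mem_insert_of_mem _ rfl)⟩
  obtain ⟨y1, -, hy1, hy1x, -⟩ := hpair x univ 1 one_pos (fun _ _ _ _ _ => mem_univ _) x
    (mem_univ x) r hr0
  rw [hρ.self, zero_add, hρ.comm y1 x] at hy1x
  by_cases hcase : ∀ a ∈ A, gp ρ x y1 a ≤ 0
  · -- `y1` is in a new direction
    have hd0 : 0 < dist x y1 := lt_of_lt_of_le (hr0.trans_le hy1x) (hρ.le_dist x y1)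
    refine ⟨y1, hd0, ?_, fun a ha => ?_⟩
    · refine hy1.trans_lt (lt_of_le_of_lt ?_ hrδ)
      have : C1 * r * 1 ≤ C1 * r * (C1 + 2) :=
        mul_le_mul_of_nonneg_left (by linarith) (by positivity)
      nlinarith
    · have h1 := hcase a ha
      have h2 : dist x y1 / D' ≤ r := by
        rw [div_le_iff₀ hD'0]
        have : C1 * r * 1 ≤ C1 * r * (C1 + 2) :=
          mul_le_mul_of_nonneg_left (by linarith) (by positivity)
        have h3 : C1 * (C1 + 2) * r ≤ D' * r := mul_le_mul_of_nonneg_right hC1D hr0.le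
        nlinarith
      unfold gp at h1
      linarith
  · push Not at hcase
    obtain ⟨b, hbA, hb⟩ := hcase
    obtain ⟨y2, hy2W, hy2d, hy2x, hy2b⟩ := hpair b
      {z | 0 < gp ρ x z b ∧ ρ x y1 ≤ ρ x z} (ρ x y1) (hr0.trans_le hy1x) (by
        rintro z ⟨hz1, hz2⟩ y hy hyd
        have e1 := hy x (mem_insert _ _)
        rw [hρ.comm z x, hρ.comm y x] at e1
        have e2 := hρ.le_dist z y
        have e3 : 0 < gp ρ x y z := by
          unfold gp
          rw [hρ.comm y z]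
          have := hρ.nonneg x y
          linarith
        exact ⟨lt_of_lt_of_le (lt_min e3 hz1) (hyp x y z b), hz2.trans e1⟩)
      y1 ⟨hb, le_rfl⟩ ((C1 + 1) * r) (by positivity)
    have hxy1 : ρ x y1 ≤ C1 * r := (hρ.le_dist x y1).trans hy1
    rw [hρ.comm y1 x, hρ.comm y2 x] at hy2x
    have hxy2 : dist x y2 ≤ C1 * (C1 + 2) * r := by
      have := dist_triangle x y1 y2
      nlinarith
    have hρy2 := hρ.le_dist x y2
    have hxy2r : r ≤ ρ x y2 := by
      have := hy2W.2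
      linarith
    have hb1 : ρ x b + r ≤ ρ y2 b := by
      have := hρ.tri x y1 b
      nlinarith
    have hd0 : 0 < dist x y2 := lt_of_lt_of_le (hr0.trans_le hxy2r) hρy2
    refine ⟨y2, hd0, hxy2.trans_lt hrδ, fun a ha => ?_⟩
    have h2 : dist x y2 / D' ≤ r := by
      rw [div_le_iff₀ hD'0]
      have h3 : C1 * (C1 + 2) * r ≤ D' * r := mul_le_mul_of_nonneg_right hC1D hr0.le
      nlinarith
    suffices hs : ρ x a + r ≤ ρ y2 a by linarith
    rcases le_or_gt (gp ρ x a b) 0 with hab | hab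
    · -- different direction
      have h4 : gp ρ x y2 a ≤ 0 := by
        by_contra hc
        push Not at hc
        have h5 := hyp x a y2 b
        have h6 : gp ρ x a y2 = gp ρ x y2 a := by
          unfold gp; rw [hρ.comm a y2]; ring
        rw [h6] at h5
        exact absurd (lt_of_lt_of_le (lt_min hc hy2W.1) h5) (not_lt.2 hab)
      unfold gp at h4
      linarith
    · have h3 := hηA' a ha b hbA hab
      have h4 : gp ρ x y2 b < η := by
        have h5 := hρ.tri x y2 b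
        unfold gp
        linarith
      have h5 := hyp x y2 a b
      have h6 : gp ρ x y2 a ≤ gp ρ x y2 b := by
        rcases min_le_iff.1 h5 with h6 | h6
        · exact h6
        · linarith
      unfold gp at h6
      linarith

end Pool.Agent.H362O
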