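import Mathlib

/-!
# The tree of `1`-Lipschitz paths in a Banach space

Points are pairs (length, `1`-Lipschitz path `ℝ → Y` which vanishes near `-∞`), the distance is the
tree distance `len u + len v - 2 * (time of agreement)`.  It is `0`-hyperbolic and geodesic, and the
endpoint map is `1`-Lipschitz and lifts steps.  (Helper file for MP_df3c4e_an.)
-/

set_option autoImplicit false

open Set Filter Topology Metric

namespace Pool.Agent.H362O

/-- A length and a `1`-Lipschitz path vanishing near `-∞`. -/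
structure PathPt (Y : Type*) [NormedAddCommGroup Y] where
  len : ℝ
  path : ℝ → Y
  ev0 : ∃ M : ℝ, ∀ τ, τ ≤ M → path τ = 0
  lip : ∀ s t, s ≤ t → ‖path s - path t‖ ≤ t - s

namespace PathPt

variable {Y : Type*} [NormedAddCommGroup Y]

/-- The trivial path. -/
instance : Inhabited (PathPt Y) :=
  ⟨⟨0, fun _ => 0, ⟨0, fun _ _ => rfl⟩, fun s t h => by simpa using h⟩⟩

/-- Times up to which two paths agree. -/
def agSet (u v : PathPt Y) : Set ℝ :=
  {s | s ≤ u.len ∧ s ≤ v.len ∧ ∀ τ, τ ≤ s → u.path τ = v.path τ}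

/-- Time of agreement. -/
noncomputable def ag (u v : PathPt Y) : ℝ := sSup (agSet u v)

/-- Tree distance. -/
noncomputable def d (u v : PathPt Y) : ℝ := u.len + v.len - 2 * ag u v

/-- Endpoint. -/
def F (u : PathPt Y) : Y := u.path u.len

lemma agSet_nonempty (u v : PathPt Y) : (agSet u v).Nonempty := by
  obtain ⟨M, hM⟩ := u.ev0
  obtain ⟨N, hN⟩ := v.ev0
  refine ⟨min (min M N) (min u.len v.len), ?_, ?_, fun τ h => ?_⟩
  · exact (min_le_right _ _).trans (min_le_left _ _)
  · exact (min_le_right _ _).trans (min_le_right _ _)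
  · have h1 := h.trans (min_le_left _ _)
    rw [hM τ (h1.trans (min_le_left _ _)), hN τ (h1.trans (min_le_right _ _))]

lemma bddAbove_agSet (u v : PathPt Y) : BddAbove (agSet u v) :=
  ⟨u.len, fun _ hs => hs.1⟩

lemma le_ag {u v : PathPt Y} {s : ℝ} (hs : s ∈ agSet u v) : s ≤ ag u v :=
  le_csSup (bddAbove_agSet u v) hs

lemma ag_le_left (u v : PathPt Y) : ag u v ≤ u.len :=
  csSup_le (agSet_nonempty u v) fun _ hs => hs.1

lemma ag_le_right (u v : PathPt Y) : ag u v ≤ v.len :=
  csSup_le (agSet_nonempty u v) fun _ hs => hs.2.1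

lemma agSet_comm (u v : PathPt Y) : agSet u v = agSet v u := by
  ext s
  constructor
  · rintro ⟨h2, h3, h4⟩
    exact ⟨h3, h2, fun τ b => (h4 τ b).symm⟩
  · rintro ⟨h2, h3, h4⟩
    exact ⟨h3, h2, fun τ b => (h4 τ b).symm⟩

lemma ag_comm (u v : PathPt Y) : ag u v = ag v u := by
  unfold ag; rw [agSet_comm]

lemma ag_self (u : PathPt Y) : ag u u = u.len :=
  le_antisymm (ag_le_left u u) (le_ag ⟨le_rfl, le_rfl, fun _ _ => rfl⟩)

lemma ag_ultra (u v w : PathPt Y) : min (ag u v) (ag v w) ≤ ag u w := by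
  apply le_of_forall_lt
  intro s hs
  obtain ⟨s', hs1, hs2⟩ := exists_between hs
  obtain ⟨s1, hs1m, hs1'⟩ := exists_lt_of_lt_csSup (agSet_nonempty u v)
    (lt_of_lt_of_le hs2 (min_le_left _ _))
  obtain ⟨s2, hs2m, hs2'⟩ := exists_lt_of_lt_csSup (agSet_nonempty v w)
    (lt_of_lt_of_le hs2 (min_le_right _ _))
  refine hs1.trans_le (le_ag ⟨hs1'.le.trans hs1m.1, hs2'.le.trans hs2m.2.1,
    fun τ b => ?_⟩)
  exact (hs1m.2.2 τ (b.trans hs1'.le)).trans (hs2m.2.2 τ (b.trans hs2'.le))

end PathPt

/-- The four point inequality for ultrametric-like quantities. -/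
lemma four_of_ultra {α : Type*} (m : α → α → ℝ) (hc : ∀ x y, m x y = m y x)
    (hu : ∀ x y z, min (m x y) (m y z) ≤ m x z) (x y z q : α) :
    min (m x y + m q z) (m y z + m q x) ≤ m x z + m q y := by
  have h1 : min (m x y) (m y z) ≤ m x z := hu x y z
  have h2 : min (m q x) (m x y) ≤ m q y := hu q x y
  have h3 : min (m q z) (m y z) ≤ m q y := by
    have := hu q z y; rwa [hc z y] at this
  have h4 : min (m q x) (m q z) ≤ m x z := by
    have := hu x q z; rwa [hc x q] at this
  by_contra hcon
  push Not at hcon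
  have hc1 := lt_of_lt_of_le hcon (min_le_left _ _)
  have hc2 := lt_of_lt_of_le hcon (min_le_right _ _)
  rcases min_le_iff.1 h1 with h1 | h1 <;> rcases min_le_iff.1 h2 with h2 | h2 <;>
    rcases min_le_iff.1 h3 with h3 | h3 <;> rcases min_le_iff.1 h4 with h4 | h4 <;> linarith

namespace PathPt

variable {Y : Type*} [NormedAddCommGroup Y]

lemma d_self (u : PathPt Y) : d u u = 0 := by
  unfold d; rw [ag_self]; ring

lemma d_comm (u v : PathPt Y) : d u v = d v u := by
  unfold d; rw [ag_comm]; ring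

lemma len_le (u v : PathPt Y) : u.len - v.len ≤ d u v := by
  unfold d
  have := ag_le_right u v
  linarith

lemma d_nonneg (u v : PathPt Y) : 0 ≤ d u v := by
  unfold d
  have h1 := ag_le_left u v
  have h2 := ag_le_right u v
  linarith

lemma d_triangle (u v w : PathPt Y) : d u w ≤ d u v + d v w := by
  unfold d
  have h1 := ag_ultra u v w
  have h2 := ag_le_right u v
  have h3 := ag_le_left v w
  rcases min_le_iff.1 h1 with h1 | h1 <;> linarith

/-- Twice the Gromov product. -/
noncomputable def G (q x y : PathPt Y) : ℝ := d q x + d q y - d x y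

lemma G_min (q x y z : PathPt Y) : min (G q x y) (G q y z) ≤ G q x z := by
  have h := four_of_ultra ag ag_comm ag_ultra x y z q
  unfold G d
  rcases min_le_iff.1 h with h | h
  · apply min_le_iff.2; left; linarith
  · apply min_le_iff.2; right; linarith

lemma F_lip (u v : PathPt Y) : ‖F u - F v‖ ≤ d u v := by
  have key : ∀ s ∈ agSet u v, s ≤ (u.len + v.len - ‖F u - F v‖) / 2 := by
    rintro s ⟨h1, h2, h3⟩
    have a1 := u.lip s u.len h1
    have a2 := v.lip s v.len h2
    have a3 := h3 s le_rfl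
    have a4 : ‖F u - F v‖ ≤ ‖u.path s - u.path u.len‖ + ‖v.path s - v.path v.len‖ := by
      have : F u - F v = (v.path s - v.path v.len) - (u.path s - u.path u.len) := by
        unfold F; rw [a3]; abel
      rw [this]
      have := norm_sub_le (v.path s - v.path v.len) (u.path s - u.path u.len)
      linarith
    linarith
  have := csSup_le (agSet_nonempty u v) key
  unfold d
  change ag u v ≤ _ at this
  linarith

/-- Truncation. -/
def trunc (u : PathPt Y) (s : ℝ) : PathPt Y :=
  ⟨s, u.path, u.ev0, u.lip⟩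

lemma ag_trunc (u : PathPt Y) {s : ℝ} (hs' : s ≤ u.len) :
    ag (u.trunc s) u = s :=
  le_antisymm (ag_le_left _ _) (le_ag ⟨le_rfl, hs', fun _ _ => rfl⟩)

lemma exists_seg (q u : PathPt Y) {h : ℝ} (h0 : 0 ≤ h) (h1 : h ≤ d q u) :
    ∃ v : PathPt Y, d q v ≤ h ∧ d v u ≤ d q u - h := by
  have ml := ag_le_left q u
  have mr := ag_le_right q u
  rcases le_total h (q.len - ag q u) with hh | hh
  · refine ⟨q.trunc (q.len - h), ?_, ?_⟩
    · have h2 := ag_trunc q (s := q.len - h) (by linarith)
      unfold d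
      rw [ag_comm, h2]
      change q.len + (q.len - h) - 2 * (q.len - h) ≤ h
      linarith
    · have h2 := ag_trunc q (s := q.len - h) (by linarith)
      have h3 := ag_ultra (q.trunc (q.len - h)) q u
      rw [h2] at h3
      have h4 : ag q u ≤ ag (q.trunc (q.len - h)) u := by
        refine le_trans (le_min ?_ le_rfl) h3
        linarith
      unfold d
      change q.len - h + u.len - 2 * _ ≤ _
      linarith
  · have h1' : h ≤ q.len + u.len - 2 * ag q u := h1
    refine ⟨u.trunc (h - q.len + 2 * ag q u), ?_, ?_⟩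
    · have h2 := ag_trunc u (s := h - q.len + 2 * ag q u) (by linarith)
      have h3 := ag_ultra q u (u.trunc (h - q.len + 2 * ag q u))
      rw [ag_comm u, h2] at h3
      have h4 : ag q u ≤ ag q (u.trunc (h - q.len + 2 * ag q u)) := by
        refine le_trans (le_min le_rfl ?_) h3
        linarith
      unfold d
      change q.len + (h - q.len + 2 * ag q u) - 2 * _ ≤ _
      linarith
    · have h2 := ag_trunc u (s := h - q.len + 2 * ag q u) (by linarith)
      unfold d
      rw [h2]
      change (h - q.len + 2 * ag q u) + u.len - 2 * (h - q.len + 2 * ag q u) ≤ _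
      linarith

lemma proj_exists (q u : PathPt Y) (R : ℝ) (hR : 0 ≤ R) :
    ∃ v : PathPt Y, d q v ≤ min R (d q u) ∧ d v u ≤ d q u - min R (d q u) ∧
      (d q u ≤ R → v = u) := by
  rcases le_total (d q u) R with h | h
  · refine ⟨u, ?_, ?_, fun _ => rfl⟩
    · rw [min_eq_right h]
    · rw [min_eq_right h, d_self]; simp
  · obtain ⟨v, h1, h2⟩ := exists_seg q u hR h
    rcases eq_or_lt_of_le h with he | hl
    · refine ⟨u, ?_, ?_, fun _ => rfl⟩
      · rw [min_eq_right he.symm.le]
      · rw [min_eq_right he.symm.le, d_self]; simp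
    · refine ⟨v, ?_, ?_, fun h' => absurd h' (not_le.2 hl)⟩
      · rwa [min_eq_left h]
      · rwa [min_eq_left h]

/-- Nearest point map onto the ball of radius `R` about `q`. -/
noncomputable def proj (q : PathPt Y) (R : ℝ) (u : PathPt Y) : PathPt Y :=
  if hR : 0 ≤ R then Classical.choose (proj_exists q u R hR) else u

lemma proj_spec (q u : PathPt Y) {R : ℝ} (hR : 0 ≤ R) :
    d q (proj q R u) ≤ min R (d q u) ∧ d (proj q R u) u ≤ d q u - min R (d q u) ∧
      (d q u ≤ R → proj q R u = u) := by
  unfold proj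
  rw [dif_pos hR]
  exact Classical.choose_spec (proj_exists q u R hR)

lemma proj_lip (q u u' : PathPt Y) {R R' : ℝ} (hR : 0 ≤ R) (hR' : 0 ≤ R') :
    d (proj q R u) (proj q R' u') ≤ max (d u u') |R - R'| := by
  obtain ⟨h1, h2, -⟩ := proj_spec q u hR
  obtain ⟨h1', h2', -⟩ := proj_spec q u' hR'
  set v := proj q R u
  set v' := proj q R' u'
  have hd1 : d q v = min R (d q u) := by
    have := d_triangle q v u
    linarith
  have hd1' : d q v' = min R' (d q u') := by
    have := d_triangle q v' u'
    linarith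
  have g1 := G_min q v u v'
  have g2 := G_min q u u' v'
  have hU := d_triangle q u u'
  have hU' := d_triangle q u' u
  rw [d_comm u' u] at hU'
  have g3 : 2 * min R (d q u) ≤ G q v u := by
    unfold G; linarith
  have g4 : 2 * min R' (d q u') ≤ G q u' v' := by
    unfold G; rw [d_comm u' v']; linarith
  have g5 : d v v' = min R (d q u) + min R' (d q u') - G q v v' := by
    unfold G; linarith
  have g6 : G q u u' = d q u + d q u' - d u u' := rfl
  have m1 := min_le_left R (d q u)
  have m2 := min_le_right R (d q u)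
  have m1' := min_le_left R' (d q u')
  have m2' := min_le_right R' (d q u')
  have a1 := le_abs_self (R - R')
  have a2 := neg_abs_le (R - R')
  rw [g5]
  rcases min_le_iff.1 g1 with g1 | g1
  · rcases min_choice R (d q u) with hm | hm
    · apply le_max_of_le_right
      linarith
    · apply le_max_of_le_left
      linarith
  · rcases min_le_iff.1 g2 with g2 | g2
    · apply le_max_of_le_left
      linarith
    · rcases min_choice R' (d q u') with hm | hm
      · apply le_max_of_le_right
        linarith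
      · apply le_max_of_le_left
        linarith

/-- Extension of a path by a segment with velocity `v`. -/
noncomputable def ext [NormedSpace ℝ Y] (p : PathPt Y) (r : ℝ) (v : Y) (hv : ‖v‖ ≤ 1) :
    PathPt Y where
  len := p.len + r
  path := fun τ => if τ ≤ p.len then p.path τ else F p + (τ - p.len) • v
  ev0 := by
    obtain ⟨M, hM⟩ := p.ev0
    refine ⟨min M p.len, fun τ h => ?_⟩
    rw [if_pos (h.trans (min_le_right _ _))]
    exact hM τ (h.trans (min_le_left _ _))
  lip := by
    have key : ∀ s t, s ≤ t → ‖(F p + (s - p.len) • v) - (F p + (t - p.len) • v)‖ ≤ t - s := by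
      intro s t hst
      rw [add_sub_add_left_eq_sub, ← sub_smul, norm_smul, Real.norm_eq_abs,
        show s - p.len - (t - p.len) = -(t - s) by ring, abs_neg, abs_of_nonneg (by linarith)]
      nlinarith [norm_nonneg v]
    intro s t hst
    rcases le_or_gt t p.len with ht | ht
    · rw [if_pos (hst.trans ht), if_pos ht]
      exact p.lip s t hst
    · rw [if_neg (not_le.2 ht)]
      rcases le_or_gt s p.len with hs' | hs'
      · rw [if_pos hs']
        have e1 := p.lip s p.len hs'
        have e2 := key p.len t ht.le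
        rw [sub_self, zero_smul, add_zero] at e2
        have e3 := norm_sub_le_norm_sub_add_norm_sub (p.path s) (p.path p.len)
          (F p + (t - p.len) • v)
        change ‖p.path p.len - _‖ ≤ _ at e2
        linarith
      · rw [if_neg (not_le.2 hs')]
        exact key s t hst

lemma ag_ext [NormedSpace ℝ Y] (p : PathPt Y) {r : ℝ} (hr : 0 < r) {v : Y} (hv : ‖v‖ ≤ 1) :
    ag p (ext p r v hv) = p.len := by
  apply le_antisymm (ag_le_left _ _)
  refine le_ag ⟨le_rfl, ?_, fun τ h2 => ?_⟩
  · change p.len ≤ p.len + r; linarith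
  · change p.path τ = if τ ≤ p.len then p.path τ else F p + (τ - p.len) • v
    rw [if_pos h2]

lemma d_ext [NormedSpace ℝ Y] (p : PathPt Y) {r : ℝ} (hr : 0 < r) {v : Y} (hv : ‖v‖ ≤ 1) :
    d p (ext p r v hv) = r := by
  unfold d
  rw [ag_ext p hr hv]
  change p.len + (p.len + r) - 2 * p.len = r
  ring

/-- Lifting a step. -/
lemma exists_ext [NormedSpace ℝ Y] (p : PathPt Y) (w : Y) {r : ℝ} (hr : 0 < r)
    (hw : ‖w - F p‖ ≤ r) : ∃ q : PathPt Y, d p q ≤ r ∧ F q = w := by
  have hv : ‖r⁻¹ • (w - F p)‖ ≤ 1 := by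
    rw [norm_smul, norm_inv, Real.norm_eq_abs, abs_of_pos hr, inv_mul_le_iff₀ hr]
    linarith
  refine ⟨ext p r (r⁻¹ • (w - F p)) hv, (d_ext p hr hv).le, ?_⟩
  change (if p.len + r ≤ p.len then p.path (p.len + r) else
    F p + (p.len + r - p.len) • (r⁻¹ • (w - F p))) = w
  rw [if_neg (by linarith), add_sub_cancel_left, smul_smul, mul_inv_cancel₀ hr.ne', one_smul]
  abel

lemma ext_inj (p : PathPt ℝ) {r : ℝ} {σ σ' : ℝ} (h : ‖σ‖ ≤ 1) (h' : ‖σ'‖ ≤ 1)
    (hag : p.len < ag (ext p r σ h) (ext p r σ' h')) : σ = σ' := by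
  obtain ⟨s, hs, hps⟩ := exists_lt_of_lt_csSup (agSet_nonempty _ _) hag
  have h2 := hs.2.2 s le_rfl
  change (if s ≤ p.len then p.path s else F p + (s - p.len) • σ) =
    (if s ≤ p.len then p.path s else F p + (s - p.len) • σ') at h2
  rw [if_neg (not_le.2 hps), if_neg (not_le.2 hps)] at h2
  have h3 : (s - p.len) * σ = (s - p.len) * σ' := add_left_cancel h2
  exact mul_left_cancel₀ (sub_ne_zero.2 hps.ne') h3

/-- A fresh direction at `p`. -/
lemma exists_fresh (p : PathPt ℝ) {S : Set (PathPt ℝ)} (hS : S.Finite) {r : ℝ} (hr : 0 < r) :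
    ∃ q : PathPt ℝ, q.len = p.len + r ∧ d p q ≤ r ∧ ∀ u ∈ S, d u p + r ≤ d u q := by
  have hσ1 : ∀ m : ℕ, ‖1 / ((m : ℝ) + 1)‖ ≤ (1 : ℝ) := fun m => by
    rw [Real.norm_eq_abs, abs_of_nonneg (by positivity), div_le_one (by positivity)]
    have : (0 : ℝ) ≤ m := Nat.cast_nonneg m
    linarith
  let q : ℕ → PathPt ℝ := fun m => ext p r (1 / ((m : ℝ) + 1)) (hσ1 m)
  have hag : ∀ m, ag p (q m) = p.len := fun m => ag_ext p hr (hσ1 m)
  have hbad : {m : ℕ | ∃ u ∈ S, p.len < ag u (q m)}.Finite := by
    have : {m : ℕ | ∃ u ∈ S, p.len < ag u (q m)} = ⋃ u ∈ S, {m : ℕ | p.len < ag u (q m)} := by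
      ext m; simp
    rw [this]
    refine hS.biUnion fun u _ => Set.Subsingleton.finite ?_
    intro m hm m' hm'
    have h1 := ag_ultra (q m) u (q m')
    rw [ag_comm (q m) u] at h1
    have h2 := ext_inj p (hσ1 m) (hσ1 m')
      (lt_of_lt_of_le (lt_min hm hm') h1)
    rw [div_eq_div_iff (by positivity) (by positivity)] at h2
    have h3 : (m : ℝ) = m' := by linarith
    exact_mod_cast h3
  obtain ⟨m, hm⟩ := hbad.exists_notMem
  rw [mem_ofPred_eq] at hm
  push Not at hm
  have hlen : (q m).len = p.len + r := rfl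
  refine ⟨q m, hlen, ?_, fun u hu => ?_⟩
  · unfold d
    rw [hag, hlen]; linarith
  · have h1 := hm u hu
    have h2 := ag_ultra u (q m) p
    rw [ag_comm (q m) p, hag, min_eq_left h1] at h2
    unfold d
    rw [hlen]; linarith

end PathPt

end Pool.Agent.H362O
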