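import Pool.Agent.R277.JT.Tree

/-!
# A function on the James tree space with plateaus near every point (helper file for MP_df3c4e_an)
-/

set_option autoImplicit false

open Set Filter Topology Metric

namespace Pool.Agent.H362O.Plateau

open Pool.Agent.R277.JT

/-- Labels. -/
noncomputable def q (j : ℕ) : ℝ := TopologicalSpace.denseSeq ℝ (Nat.unpair j).1

lemma exists_q {a b : ℝ} (h : a < b) (K : ℕ) : ∃ j, K ≤ j ∧ a < q j ∧ q j < b := by
  obtain ⟨i, hi⟩ := (TopologicalSpace.denseRange_denseSeq ℝ).exists_mem_open isOpen_Ioo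
    (nonempty_Ioo.2 h)
  refine ⟨Nat.pair i K, Nat.right_le_pair _ _, ?_⟩
  unfold q
  rw [Nat.unpair_pair]
  exact hi

/-- The node with code `k₁, …, k_m`: blocks `0^k 1`. -/
def pth : List ℕ → List Bool
  | [] => []
  | k :: l => List.replicate k false ++ true :: pth l

/-- The branch through `pth l` continued by zeros. -/
def cc (l : List ℕ) (n : ℕ) : Bool := (pth l).getD n false

lemma cc_nil (n : ℕ) : cc [] n = false := by simp [cc, pth]

lemma cc_lt {k n : ℕ} (l : List ℕ) (h : n < k) : cc (k :: l) n = false := by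
  simp only [cc, pth]
  rw [List.getD_append _ _ _ _ (by simpa using h)]
  rw [List.getD_eq_getElem _ _ (by simpa using h)]
  simp

lemma cc_eq (k : ℕ) (l : List ℕ) : cc (k :: l) k = true := by
  simp only [cc, pth]
  rw [List.getD_append_right _ _ _ _ (by simp)]
  simp

lemma cc_add (k : ℕ) (l : List ℕ) (n : ℕ) : cc (k :: l) (k + 1 + n) = cc l n := by
  simp only [cc, pth]
  rw [List.getD_append_right _ _ _ _ (by simp; omega)]
  simp only [List.length_replicate]
  rw [show k + 1 + n - k = n + 1 by omega]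
  simp

lemma pth_length (k : ℕ) (l : List ℕ) : (pth (k :: l)).length = k + 1 + (pth l).length := by
  simp [pth]; omega

/-- If the branch of `v` passes through the node of `w`, then `v` extends `w`. -/
lemma prefix_of {w : List ℕ} : ∀ {v : List ℕ}, (∀ n, n < (pth w).length → cc v n = cc w n) →
    w <+: v := by
  induction w with
  | nil => intro v _; exact List.nil_prefix
  | cons k w ih =>
    intro v hv
    rw [pth_length] at hv
    cases v with
    | nil =>
      have := hv k (by omega)
      rw [cc_nil, cc_eq] at this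
      exact absurd this (by decide)
    | cons k' v =>
      have hkk : k = k' := by
        rcases lt_trichotomy k k' with h | h | h
        · have := hv k (by omega)
          rw [cc_lt v h, cc_eq] at this
          exact absurd this (by decide)
        · exact h
        · have := hv k' (by omega)
          rw [cc_lt w h, cc_eq] at this
          exact absurd this (by decide)
      subst hkk
      have h2 : w <+: v := ih fun n hn => by
        have := hv (k + 1 + n) (by omega)
        rwa [cc_add, cc_add] at this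
      obtain ⟨t, ht⟩ := h2
      exact ⟨t, by rw [List.cons_append, ht]⟩

lemma pth_inj {w v : List ℕ} (h : pth w = pth v) : w = v := by
  have h1 : w <+: v := prefix_of fun n _ => by unfold cc; rw [h]
  have h2 : v <+: w := prefix_of fun n _ => by unfold cc; rw [h]
  exact h1.eq_of_length (le_antisymm h1.length_le h2.length_le)

/-- Truncation of codes at a level. -/
lemma exists_trunc (σ : List ℕ) : ∀ N : ℕ, ∃ σ', σ' <+: σ ∧ (pth σ').length ≤ N ∧
    ∀ n, n < N → cc σ n = cc σ' n := by
  induction σ with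
  | nil => intro N; exact ⟨[], List.prefix_rfl, by simp [pth], fun _ _ => rfl⟩
  | cons k σ ih =>
    intro N
    by_cases h : k + 1 ≤ N
    · obtain ⟨σ', h1, h2, h3⟩ := ih (N - (k + 1))
      refine ⟨k :: σ', ?_, ?_, fun n hn => ?_⟩
      · obtain ⟨t, ht⟩ := h1
        exact ⟨t, by rw [List.cons_append, ht]⟩
      · rw [pth_length]; omega
      · rcases lt_trichotomy n k with hnk | hnk | hnk
        · rw [cc_lt _ hnk, cc_lt _ hnk]
        · subst hnk; rw [cc_eq, cc_eq]
        · obtain ⟨m, rfl⟩ : ∃ m, n = k + 1 + m := ⟨n - (k + 1), by omega⟩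
          rw [cc_add, cc_add]
          exact h3 m (by omega)
    · refine ⟨[], List.nil_prefix, by simp [pth], fun n hn => ?_⟩
      rw [cc_nil, cc_lt _ (by omega)]

/-- Appending a block does not change the branch before that block ends. -/
lemma cc_append (σ : List ℕ) (j : ℕ) : ∀ n, n < j → cc (σ ++ [j]) n = cc σ n := by
  induction σ with
  | nil => intro n hn; rw [List.nil_append, cc_lt _ hn, cc_nil]
  | cons k σ ih =>
    intro n hn
    rw [List.cons_append]
    rcases lt_trichotomy n k with hnk | hnk | hnk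
    · rw [cc_lt _ hnk, cc_lt _ hnk]
    · subst hnk; rw [cc_eq, cc_eq]
    · obtain ⟨m, rfl⟩ : ∃ m, n = k + 1 + m := ⟨n - (k + 1), by omega⟩
      rw [cc_add, cc_add]
      exact ih m (by omega)

/-- The functional of a branch. -/
noncomputable def EE (c : ℕ → Bool) : Pre Tree →ₗ[ℝ] ℝ := sgL (br c) 0

lemma abs_EE_le (c : ℕ → Bool) (x : Pre Tree) : |EE c x| ≤ ‖x‖ := abs_sgL_le 0 x

lemma br_congr {c c' : ℕ → Bool} {N : ℕ} (h : ∀ n, n < N → c n = c' n) : br c N = br c' N := by
  change (List.range N).map c = (List.range N).map c'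
  exact List.map_congr_left fun n hn => h n (List.mem_range.1 hn)

lemma EE_eq {c : ℕ → Bool} {x : Pre Tree} {N : ℕ} (hN : ∀ t : Tree, N ≤ lev t → x.val t = 0) :
    EE c x = ∑ n ∈ Finset.Ico 0 N, x.val (br c n) := by
  unfold EE
  rw [sgL_eq (N := N) fun n hn => hN _ (by rwa [IsBr.lev_eq]), ss_pc]

lemma EE_congr {c c' : ℕ → Bool} {x : Pre Tree} {N : ℕ} (hN : ∀ t : Tree, N ≤ lev t → x.val t = 0)
    (h : ∀ n, n < N → c n = c' n) : EE c x = EE c' x := by
  rw [EE_eq hN, EE_eq hN]
  refine Finset.sum_congr rfl fun n hn => ?_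
  rw [Finset.mem_Ico] at hn
  rw [br_congr fun m hm => h m (hm.trans hn.2)]

open Classical in
lemma EE_ev (c : ℕ → Bool) (t : Tree) : EE c (ev t) = if br c (lev t) = t then 1 else 0 := by
  classical
  rw [EE_eq (N := lev t + 1) fun s hs => by
    rw [val_ev, if_neg]; rintro rfl; omega]
  by_cases h : br c (lev t) = t
  · rw [if_pos h, Finset.sum_eq_single (lev t)]
    · rw [val_ev, if_pos h.symm]
    · intro n _ hn
      rw [val_ev, if_neg]
      intro h'
      apply hn
      rw [h', IsBr.lev_eq]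
    · intro hn
      exact absurd (Finset.mem_Ico.2 ⟨Nat.zero_le _, Nat.lt_succ_self _⟩) hn
  · rw [if_neg h]
    refine Finset.sum_eq_zero fun n _ => ?_
    rw [val_ev, if_neg]
    intro h'
    apply h
    have : lev t = n := by rw [h', IsBr.lev_eq]
    rw [this]; exact h'.symm

/-- The node of a code. -/
def nd (w : List ℕ) : Tree := pth w

lemma lev_nd (w : List ℕ) : lev (nd w) = (pth w).length := rfl

lemma br_nd (w : List ℕ) : br (cc w) (lev (nd w)) = nd w := by
  rw [lev_nd]
  change (List.range (pth w).length).map (cc w) = pth w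
  apply List.ext_getElem
  · simp
  · intro n h1 h2
    simp only [List.getElem_map, List.getElem_range, cc]
    exact List.getD_eq_getElem _ _ h2

lemma prefix_of_br {w v : List ℕ} (h : br (cc v) (lev (nd w)) = nd w) : w <+: v := by
  apply prefix_of
  intro n hn
  have h2 : br (cc v) (lev (nd w)) = br (cc w) (lev (nd w)) := h.trans (br_nd w).symm
  have h' : (List.range (lev (nd w))).map (cc v) = (List.range (lev (nd w))).map (cc w) := h2
  rw [List.map_inj_left] at h'
  exact h' n (List.mem_range.2 hn)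

/-- Sublevels of the crossing functional. -/
def SS (x : Pre Tree) : Set ℝ :=
  {c | ∃ σ : List ℕ, σ ≠ [] ∧ (∀ k ∈ σ, c ≤ q k) ∧ c ≤ EE (cc σ) x}

/-- The crossing functional. -/
noncomputable def PP (x : Pre Tree) : ℝ := sSup (SS x)

lemma SS_bdd (x : Pre Tree) : BddAbove (SS x) := by
  refine ⟨‖x‖, ?_⟩
  rintro c ⟨σ, -, -, h⟩
  exact h.trans ((le_abs_self _).trans (abs_EE_le _ x))

lemma SS_ne (x : Pre Tree) : (SS x).Nonempty := by
  refine ⟨min (q 0) (EE (cc [0]) x), [0], by simp, fun k hk => ?_, min_le_right _ _⟩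
  rw [List.mem_singleton] at hk
  rw [hk]; exact min_le_left _ _

lemma EE_sub_le (c : ℕ → Bool) (x y : Pre Tree) : EE c x - EE c y ≤ ‖x - y‖ := by
  rw [← map_sub]
  exact (le_abs_self _).trans (abs_EE_le _ _)

lemma PP_le (x y : Pre Tree) : PP x ≤ PP y + ‖x - y‖ := by
  apply csSup_le (SS_ne x)
  rintro c ⟨σ, h0, h1, h2⟩
  have h3 : c - ‖x - y‖ ∈ SS y := by
    refine ⟨σ, h0, fun k hk => ?_, ?_⟩
    · have := h1 k hk
      have := norm_nonneg (x - y)
      linarith
    · have := EE_sub_le (cc σ) x y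
      linarith
  have := le_csSup (SS_bdd y) h3
  change c - ‖x - y‖ ≤ PP y at this
  linarith

lemma exists_big (a : ℝ) (K : ℕ) : ∃ j, K ≤ j ∧ a < q j := by
  obtain ⟨j, h1, h2, -⟩ := exists_q (show a < a + 1 by linarith) K
  exact ⟨j, h1, h2⟩

lemma PP_mem (x : Pre Tree) : PP x ∈ SS x := by
  obtain ⟨N, hN⟩ := exists_lev x
  obtain ⟨k0, hk0, hq0⟩ := exists_big ‖x‖ N
  set Fs : Set (List ℕ) := insert [k0] {σ | (pth σ).length ≤ N ∧ σ ≠ []} with hFs
  have hfin : Fs.Finite := by
    apply Set.Finite.insert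
    refine Set.Finite.subset (Set.Finite.preimage (f := pth) (fun a _ b _ h => pth_inj h)
      (List.finite_length_le Bool N)) ?_
    rintro σ ⟨h, -⟩
    exact h
  set T : List ℕ → Set ℝ := fun σ => {c | (∀ k ∈ σ, c ≤ q k) ∧ c ≤ EE (cc σ) x} with hT
  have hTc : ∀ σ, IsClosed (T σ) := by
    intro σ
    have : T σ = (⋂ k ∈ {k | k ∈ σ}, Iic (q k)) ∩ Iic (EE (cc σ) x) := by
      ext c; simp [hT]
    rw [this]
    exact (isClosed_biInter fun k _ => isClosed_Iic).inter isClosed_Iic
  have hSS : SS x = ⋃ σ ∈ Fs, T σ := by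
    ext c
    constructor
    · rintro ⟨σ, h0, h1, h2⟩
      obtain ⟨σ', t1, t2, t3⟩ := exists_trunc σ N
      rw [mem_iUnion₂]
      by_cases hσ' : σ' = []
      · subst hσ'
        refine ⟨[k0], mem_insert _ _, ?_, ?_⟩
        · intro k hk
          rw [List.mem_singleton] at hk
          rw [hk]
          have := (le_abs_self _).trans (abs_EE_le (cc σ) x)
          linarith
        · rw [EE_congr hN (c' := cc σ) fun n hn => by
            rw [t3 n hn, cc_nil, cc_lt _ (by omega)]]
          exact h2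
      · refine ⟨σ', mem_insert_of_mem _ ⟨t2, hσ'⟩, fun k hk => h1 k (t1.subset hk), ?_⟩
        rw [EE_congr hN (c' := cc σ) fun n hn => (t3 n hn).symm]
        exact h2
    · intro hc
      rw [mem_iUnion₂] at hc
      obtain ⟨σ, hσ, h1, h2⟩ := hc
      refine ⟨σ, ?_, h1, h2⟩
      rcases hσ with rfl | hσ
      · simp
      · exact hσ.2
  have hcl : IsClosed (SS x) := by
    rw [hSS]
    exact hfin.isClosed_biUnion fun σ _ => hTc σ
  exact hcl.csSup_mem (SS_ne x) (SS_bdd x)

lemma exists_gap {p : ℝ} (σ : List ℕ) (h : ∀ k ∈ σ, p < q k) : ∃ m, p < m ∧ ∀ k ∈ σ, m ≤ q k := by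
  induction σ with
  | nil => exact ⟨p + 1, by linarith, by simp⟩
  | cons k σ ih =>
    obtain ⟨m, h1, h2⟩ := ih fun j hj => h j (List.mem_cons_of_mem _ hj)
    refine ⟨min m (q k), lt_min h1 (h k List.mem_cons_self), fun j hj => ?_⟩
    rcases List.mem_cons.1 hj with rfl | hj
    · exact min_le_right _ _
    · exact (min_le_left _ _).trans (h2 j hj)

/-- Plateaus of the crossing functional. -/
theorem plateau (x : Pre Tree) {ρ ε : ℝ} (hρ : 0 < ρ) (hε : 0 < ε) :
    ∃ (y : Pre Tree) (c : ℝ), ‖x - y‖ ≤ 3 * (ρ + ε) ∧ PP x ≤ c ∧ c ≤ PP x + ε ∧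
      ∀ z, ‖z - y‖ ≤ ρ → PP z = c := by
  classical
  set p := PP x with hp
  obtain ⟨w, c, hw0, hw1, ⟨k1, hk1, hk1c⟩, hpc, hcp, hEw⟩ : ∃ (w : List ℕ) (c : ℝ), w ≠ [] ∧
      (∀ k ∈ w, c ≤ q k) ∧ (∃ k ∈ w, q k ≤ c) ∧ p ≤ c ∧ c ≤ p + ε ∧ p ≤ EE (cc w) x := by
    obtain ⟨σ, h0, h1, h2⟩ := PP_mem x
    by_cases hA : ∃ k ∈ σ, q k ≤ p
    · exact ⟨σ, p, h0, h1, hA, le_rfl, by linarith, h2⟩
    · push Not at hA
      obtain ⟨m, hm1, hm2⟩ := exists_gap σ hA
      obtain ⟨N, hN⟩ := exists_lev x
      obtain ⟨j, hj1, hj2, hj3⟩ := exists_q (lt_min hm1 (show p < p + ε by linarith)) N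
      refine ⟨σ ++ [j], q j, by simp, fun k hk => ?_, ⟨j, by simp, le_rfl⟩, hj2.le,
        (hj3.le.trans (min_le_right _ _)), ?_⟩
      · rw [List.mem_append, List.mem_singleton] at hk
        rcases hk with hk | rfl
        · exact (hj3.le.trans (min_le_left _ _)).trans (hm2 k hk)
        · exact le_rfl
      · rw [EE_congr hN (c' := cc σ) fun n hn => cc_append σ j n (by omega)]
        exact h2
  set r' := ρ + ε with hr'
  have hr0 : 0 < r' := by linarith
  set y : Pre Tree := x - r' • ev (nd []) + (2 * r') • ev (nd w) with hy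
  have hEy : ∀ v, EE (cc v) y = EE (cc v) x - r' +
      2 * r' * (if br (cc v) (lev (nd w)) = nd w then 1 else 0) := by
    intro v
    have h1 : EE (cc v) (ev (nd [])) = 1 := by
      rw [EE_ev, if_pos]; rfl
    rw [hy, map_add, map_sub, map_smul, map_smul, h1, EE_ev, smul_eq_mul, smul_eq_mul, mul_one]
  refine ⟨y, c, ?_, hpc, hcp, fun z hz => ?_⟩
  · have h1 : x - y = r' • ev (nd []) - (2 * r') • ev (nd w) := by rw [hy]; abel
    rw [h1]
    refine (norm_sub_le _ _).trans ?_
    rw [norm_smul, norm_smul, Real.norm_eq_abs, Real.norm_eq_abs, abs_of_pos hr0,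
      abs_of_pos (by linarith : 0 < 2 * r')]
    have h2 := norm_ev (nd [])
    have h3 := norm_ev (nd w)
    nlinarith
  · apply le_antisymm
    · apply csSup_le (SS_ne z)
      rintro c' ⟨σ, h0, h1, h2⟩
      by_contra hc'
      push Not at hc'
      have hnp : ¬ br (cc σ) (lev (nd w)) = nd w := by
        intro hbr
        have h3 := h1 k1 ((prefix_of_br hbr).subset hk1)
        linarith
      have h3 := hEy σ
      rw [if_neg hnp, mul_zero, add_zero] at h3
      have h4 := EE_sub_le (cc σ) z y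
      have h5 : EE (cc σ) x ≤ p := by
        by_contra hcon
        push Not at hcon
        have h6 : min c' (EE (cc σ) x) ∈ SS x :=
          ⟨σ, h0, fun k hk => (min_le_left _ _).trans (h1 k hk), min_le_right _ _⟩
        have h7 := le_csSup (SS_bdd x) h6
        change _ ≤ PP x at h7
        rcases min_le_iff.1 h7 with h8 | h8 <;> linarith
      linarith
    · apply le_csSup (SS_bdd z)
      refine ⟨w, hw0, hw1, ?_⟩
      have h3 := hEy w
      rw [if_pos (br_nd w), mul_one] at h3
      have h4 := EE_sub_le (cc w) y z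
      rw [norm_sub_rev] at h4
      linarith

lemma PP_root (s : ℝ) : PP (s • ev (nd [])) = s := by
  have hE : ∀ v, EE (cc v) (s • ev (nd [])) = s := by
    intro v
    classical
    rw [map_smul, EE_ev, if_pos, smul_eq_mul, mul_one]
    rfl
  apply le_antisymm
  · apply csSup_le (SS_ne _)
    rintro c ⟨σ, -, -, h⟩
    rwa [hE] at h
  · obtain ⟨j, -, hj⟩ := exists_big s 0
    refine le_csSup (SS_bdd _) ⟨[j], by simp, fun k hk => ?_, by rw [hE]⟩
    rw [List.mem_singleton] at hk
    rw [hk]; exact hj.le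

end Pool.Agent.H362O.Plateau
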