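import Pool.Agent.H362O.PathTree

/-!
# Octahedral pseudometrics give Lipschitz quotient maps onto separable Banach spaces

(Helper file for MP_df3c4e_an.)
-/

set_option autoImplicit false

open Set Filter Topology Metric TopologicalSpace

namespace Pool.Agent.H362O

/-- `ρ` is a pseudometric dominated by the distance. -/
structure IsPM {X : Type*} [PseudoMetricSpace X] (ρ : X → X → ℝ) : Prop where
  self : ∀ x, ρ x x = 0
  comm : ∀ x y, ρ x y = ρ y x
  tri : ∀ x y z, ρ x z ≤ ρ x y + ρ y z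
  le_dist : ∀ x y, ρ x y ≤ dist x y

/-- Octahedrality at all scales. -/
def Octa {X : Type*} [PseudoMetricSpace X] (D : ℝ) (ρ : X → X → ℝ) : Prop :=
  ∀ A : Set X, A.Finite → ∀ (x : X) (r : ℝ), 0 < r → ∀ D' : ℝ, D < D' →
    ∃ y : X, dist x y ≤ D' * r ∧ ∀ a ∈ A, ρ x a + r ≤ ρ y a

lemma IsPM.nonneg {X : Type*} [PseudoMetricSpace X] {ρ : X → X → ℝ} (h : IsPM ρ) (x y : X) :
    0 ≤ ρ x y := by
  have h1 := h.tri x y x
  rw [h.self, h.comm y x] at h1
  linarith

lemma IsPM.abs_sub_le {X : Type*} [PseudoMetricSpace X] {ρ : X → X → ℝ} (h : IsPM ρ)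
    (x y z : X) : |ρ x z - ρ y z| ≤ ρ x y := by
  have h1 := h.tri x y z
  have h2 := h.tri y x z
  rw [h.comm y x] at h2
  rw [abs_le]; constructor <;> linarith

open PathPt in
/-- One step of the construction. -/
lemma stepGen {X : Type*} [PseudoMetricSpace X] {Y : Type*} [NormedAddCommGroup Y]
    {ρ : X → X → ℝ} (hρ : IsPM ρ) {D : ℝ} (hoct : Octa D ρ) (g : X → PathPt Y)
    (hg : ∀ z z', d (g z) (g z') ≤ ρ z z') (L : List X) (x : X) (q : PathPt Y) {r : ℝ} (hr : 0 < r)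
    (hq : d (g x) q ≤ r) {D' : ℝ} (hD' : D < D') :
    ∃ g' : X → PathPt Y, (∀ z z', d (g' z) (g' z') ≤ ρ z z') ∧ (∀ a ∈ L, g' a = g a) ∧
      ∃ y, dist x y ≤ D' * r ∧ d q (g' y) ≤ 0 := by
  obtain ⟨y, hy1, hy2⟩ := hoct {a | a ∈ L} L.finite_toSet x r hr D' hD'
  refine ⟨fun z => proj q (ρ z y) (g z), fun z z' => ?_, fun a ha => ?_, y, hy1, ?_⟩
  · refine (proj_lip q (g z) (g z') (hρ.nonneg z y) (hρ.nonneg z' y)).trans ?_
    exact max_le (hg z z') (hρ.abs_sub_le z z' y)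
  · apply (proj_spec q (g a) (hρ.nonneg a y)).2.2
    have h1 := d_triangle q (g x) (g a)
    have h2 := hg x a
    have h3 := hy2 a ha
    rw [d_comm q (g x)] at h1
    rw [hρ.comm a y]
    linarith
  · have h1 := (proj_spec q (g y) (hρ.nonneg y y)).1
    have h2 := min_le_left (ρ y y) (d q (g y))
    rw [hρ.self] at h1 h2
    change d q (proj q (ρ y y) (g y)) ≤ 0
    rw [hρ.self]
    exact h1.trans h2

open PathPt in
lemma step {X : Type*} [PseudoMetricSpace X] {Y : Type*} [NormedAddCommGroup Y] [NormedSpace ℝ Y]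
    {ρ : X → X → ℝ} (hρ : IsPM ρ) {D : ℝ} (hoct : Octa D ρ) (g : X → PathPt Y)
    (hg : ∀ z z', d (g z) (g z') ≤ ρ z z') (L : List X) (x : X) (w : Y) {r : ℝ} (hr : 0 < r)
    (hw : ‖w - F (g x)‖ ≤ r) {D' : ℝ} (hD' : D < D') :
    ∃ g' : X → PathPt Y, (∀ z z', d (g' z) (g' z') ≤ ρ z z') ∧ (∀ a ∈ L, g' a = g a) ∧
      ∃ y, dist x y ≤ D' * r ∧ F (g' y) = w := by
  obtain ⟨q, hq1, hq2⟩ := exists_ext (g x) w hr hw
  obtain ⟨g', h1, h2, y, h3, h4⟩ := stepGen hρ hoct g hg L x q hr hq1 hD'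
  refine ⟨g', h1, h2, y, h3, ?_⟩
  have h5 := (F_lip q (g' y)).trans h4
  have h6 := sub_eq_zero.1 (norm_le_zero_iff.1 h5)
  rw [← h6, hq2]

open PathPt in
/-- A step into a fresh direction. -/
lemma stepFresh {X : Type*} [PseudoMetricSpace X]
    {ρ : X → X → ℝ} (hρ : IsPM ρ) {D : ℝ} (hoct : Octa D ρ) (g : X → PathPt ℝ)
    (hg : ∀ z z', d (g z) (g z') ≤ ρ z z') (L : List X) (x : X) {r : ℝ} (hr : 0 < r)
    {D' : ℝ} (hD' : D < D') :
    ∃ g' : X → PathPt ℝ, (∀ z z', d (g' z) (g' z') ≤ ρ z z') ∧ (∀ a ∈ L, g' a = g a) ∧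
      ∃ y, dist x y ≤ D' * r ∧ (g' y).len = (g x).len + r ∧
        ∀ a ∈ L, d (g a) (g x) + r ≤ d (g' a) (g' y) := by
  obtain ⟨q, hq0, hq1, hq2⟩ := exists_fresh (g x) ((L.finite_toSet).image g) hr
  obtain ⟨g', h1, h2, y, h3, h4⟩ := stepGen hρ hoct g hg L x q hr hq1 hD'
  refine ⟨g', h1, h2, y, h3, ?_, fun a ha => ?_⟩
  · have h5 := len_le q (g' y)
    have h6 := len_le (g' y) q
    rw [d_comm (g' y) q] at h6
    linarith
  · have h5 := hq2 (g a) ⟨a, ha, rfl⟩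
    have h6 := d_triangle (g a) (g' y) q
    rw [d_comm (g' y) q] at h6
    rw [h2 a ha]
    linarith

open PathPt in
/-- A step downwards. -/
lemma stepDown {X : Type*} [PseudoMetricSpace X]
    {ρ : X → X → ℝ} (hρ : IsPM ρ) {D : ℝ} (hoct : Octa D ρ) (g : X → PathPt ℝ)
    (hg : ∀ z z', d (g z) (g z') ≤ ρ z z') (L : List X) (x : X) {r : ℝ} (hr : 0 < r)
    {D' : ℝ} (hD' : D < D') :
    ∃ g' : X → PathPt ℝ, (∀ z z', d (g' z) (g' z') ≤ ρ z z') ∧ (∀ a ∈ L, g' a = g a) ∧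
      ∃ y, dist x y ≤ D' * r ∧ (g' y).len = (g x).len - r := by
  have hq : d (g x) ((g x).trunc ((g x).len - r)) ≤ r := by
    unfold d
    rw [ag_comm, ag_trunc (g x) (by linarith)]
    change (g x).len + ((g x).len - r) - 2 * ((g x).len - r) ≤ r
    linarith
  obtain ⟨g', h1, h2, y, h3, h4⟩ := stepGen hρ hoct g hg L x _ hr hq hD'
  refine ⟨g', h1, h2, y, h3, ?_⟩
  have h5 := len_le ((g x).trunc ((g x).len - r)) (g' y)
  have h6 := len_le (g' y) ((g x).trunc ((g x).len - r))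
  rw [d_comm (g' y) _] at h6
  have h7 : ((g x).trunc ((g x).len - r)).len = (g x).len - r := rfl
  linarith

/-- Successive approximation. -/
lemma iterate {X : Type*} [PseudoMetricSpace X] [CompleteSpace X] {Y : Type*}
    [NormedAddCommGroup Y] (f : X → Y) (hf : Continuous f) (U : Set X) {D : ℝ} (hD : 0 ≤ D)
    (h : ∀ a ∈ U, ∀ w : Y, ∀ δ > 0, ∃ y ∈ U, dist a y ≤ D * ‖w - f a‖ + δ ∧ ‖f y - w‖ < δ)
    {a : X} (ha : a ∈ U) (w : Y) {δ : ℝ} (hδ : 0 < δ) :
    ∃ z, dist a z ≤ D * ‖w - f a‖ + δ ∧ f z = w := by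
  set c : ℝ := δ / (2 * (D + 1) + 1) with hc
  have hD1 : 0 < 2 * (D + 1) + 1 := by linarith
  have hc0 : 0 < c := div_pos hδ hD1
  have h' : ∀ i : ℕ, ∀ a ∈ U, ∃ y ∈ U, dist a y ≤ D * ‖w - f a‖ + c / 2 ^ i ∧
      ‖f y - w‖ < c / 2 ^ i := fun i a ha => h a ha w _ (by positivity)
  choose! nx hU hd hfn using h'
  set t : ℕ → X := fun i => Nat.rec (nx 0 a) (fun i b => nx (i + 1) b) i with ht
  have ht0 : t 0 = nx 0 a := rfl
  have hts : ∀ i, t (i + 1) = nx (i + 1) (t i) := fun i => rfl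
  have htU : ∀ i, t i ∈ U := by
    intro i
    induction i with
    | zero => rw [ht0]; exact hU 0 a ha
    | succ i ih => rw [hts]; exact hU (i + 1) _ ih
  have htf : ∀ i, ‖f (t i) - w‖ < c / 2 ^ i := by
    intro i
    cases i with
    | zero => rw [ht0]; exact hfn 0 a ha
    | succ i => rw [hts]; exact hfn (i + 1) _ (htU i)
  have htd : ∀ i, dist (t i) (t (i + 1)) ≤ (2 * (D + 1) * c) / 2 / 2 ^ i := by
    intro i
    have h1 := hd (i + 1) (t i) (htU i)
    rw [← hts] at h1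
    have h2 := htf i
    rw [norm_sub_rev] at h2
    have h3 : D * ‖w - f (t i)‖ ≤ D * (c / 2 ^ i) := mul_le_mul_of_nonneg_left h2.le hD
    have h4 : c / 2 ^ (i + 1) ≤ c / 2 ^ i :=
      div_le_div_of_nonneg_left hc0.le (by positivity)
        (pow_le_pow_right₀ (by norm_num) (Nat.le_succ i))
    have h5 : (2 * (D + 1) * c) / 2 / 2 ^ i = D * (c / 2 ^ i) + c / 2 ^ i := by ring
    rw [h5]; linarith
  have hcau := cauchySeq_of_le_geometric_two htd
  obtain ⟨z, hz⟩ := cauchySeq_tendsto_of_complete hcau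
  have hz0 := dist_le_of_le_geometric_two_of_tendsto₀ htd hz
  refine ⟨z, ?_, ?_⟩
  · have h1 := dist_triangle a (t 0) z
    have h2 := hd 0 a ha
    rw [← ht0, pow_zero, div_one] at h2
    have h3 : c * (2 * (D + 1) + 1) = δ := by rw [hc]; field_simp
    nlinarith
  · have h1 : Tendsto (fun i => f (t i)) atTop (𝓝 (f z)) := (hf.tendsto z).comp hz
    have h2 : Tendsto (fun i => ‖f (t i) - w‖) atTop (𝓝 ‖f z - w‖) := (h1.sub_const w).norm
    have h3 : Tendsto (fun i : ℕ => c / 2 ^ i) atTop (𝓝 0) := by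
      have := (tendsto_pow_atTop_nhds_zero_of_lt_one (r := (1 / 2 : ℝ)) (by norm_num)
        (by norm_num)).const_mul c
      rw [mul_zero] at this
      refine this.congr fun i => ?_
      rw [one_div, inv_pow, div_eq_mul_inv]
    have h4 := le_of_tendsto_of_tendsto' h2 h3 (fun i => (htf i).le)
    exact sub_eq_zero.1 (norm_le_zero_iff.1 h4)

open PathPt in
/-- An octahedral pseudometric on a complete separable space produces Lipschitz quotient maps onto
every separable Banach space, with the same constant. -/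
theorem exists_quotient {X : Type*} [PseudoMetricSpace X] [CompleteSpace X] [SeparableSpace X]
    [Nonempty X] {Y : Type*} [NormedAddCommGroup Y] [NormedSpace ℝ Y] [CompleteSpace Y]
    [SeparableSpace Y] {ρ : X → X → ℝ} (hρ : IsPM ρ) {D : ℝ} (hD : 0 < D) (hoct : Octa D ρ) :
    ∃ f : X → Y, (∀ x y, ‖f x - f y‖ ≤ ρ x y) ∧
      ∀ x, ∀ ε > 0, ball (f x) (ε / D) ⊆ f '' ball x ε := by
  classical
  set ξ : ℕ → X := denseSeq X with hξ
  have hξd : DenseRange ξ := denseRange_denseSeq X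
  set η : ℕ → Y := denseSeq Y with hη
  have hηd : DenseRange η := denseRange_denseSeq Y
  let St := {g : X → PathPt Y // ∀ z z', d (g z) (g z') ≤ ρ z z'} × List X
  let R : ℕ → St → St → Prop := fun k s s' =>
    (∃ y, s'.2 = s.2 ++ [ξ k, y] ∧
      dist (s.2.getD (Nat.unpair (Nat.unpair k).1).1 (ξ 0)) y ≤
        (D + 1 / ((Nat.unpair (Nat.unpair (Nat.unpair k).1).2).2 + 1)) *
        (‖η (Nat.unpair (Nat.unpair (Nat.unpair k).1).2).1 -
          F (s.1.1 (s.2.getD (Nat.unpair (Nat.unpair k).1).1 (ξ 0)))‖ +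
          1 / ((Nat.unpair (Nat.unpair (Nat.unpair k).1).2).2 + 1)) ∧
      F (s'.1.1 y) = η (Nat.unpair (Nat.unpair (Nat.unpair k).1).2).1) ∧
    ∀ a ∈ s.2, s'.1.1 a = s.1.1 a
  have hex : ∀ k (s : St), ∃ s' : St, R k s s' := by
    intro k s
    have hn : (0 : ℝ) < 1 / ((Nat.unpair (Nat.unpair (Nat.unpair k).1).2).2 + 1) := by positivity
    obtain ⟨g', hg', hL, y, hy1, hy2⟩ := step hρ hoct s.1.1 s.1.2 s.2
      (s.2.getD (Nat.unpair (Nat.unpair k).1).1 (ξ 0))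
      (η (Nat.unpair (Nat.unpair (Nat.unpair k).1).2).1)
      (r := ‖η (Nat.unpair (Nat.unpair (Nat.unpair k).1).2).1 -
          F (s.1.1 (s.2.getD (Nat.unpair (Nat.unpair k).1).1 (ξ 0)))‖ +
          1 / ((Nat.unpair (Nat.unpair (Nat.unpair k).1).2).2 + 1)) (by positivity)
      (by linarith)
      (D' := D + 1 / ((Nat.unpair (Nat.unpair (Nat.unpair k).1).2).2 + 1)) (by linarith)
    exact ⟨(⟨g', hg'⟩, s.2 ++ [ξ k, y]), ⟨y, rfl, hy1, hy2⟩, hL⟩
  choose nx hnx using hex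
  let s0 : St := (⟨fun _ => default, fun z z' => by rw [d_self]; exact hρ.nonneg z z'⟩, [])
  let S : ℕ → St := fun k => Nat.rec s0 nx k
  have hS : ∀ k, R k (S k) (S (k + 1)) := fun k => hnx k (S k)
  -- growth of the lists
  have hgrow : ∀ k m, k ≤ m → ∃ l, (S m).2 = (S k).2 ++ l := by
    intro k m hkm
    induction m, hkm using Nat.le_induction with
    | base => exact ⟨[], by simp⟩
    | succ m _ ih =>
      obtain ⟨l, hl⟩ := ih
      obtain ⟨⟨y, hy, -⟩, -⟩ := hS m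
      exact ⟨l ++ [ξ m, y], by rw [hy, hl, List.append_assoc]⟩
  have hmem : ∀ k m, k ≤ m → ∀ a ∈ (S k).2, a ∈ (S m).2 := by
    intro k m hkm a ha
    obtain ⟨l, hl⟩ := hgrow k m hkm
    rw [hl]; exact List.mem_append_left _ ha
  have hfix : ∀ k m, k ≤ m → ∀ a ∈ (S k).2, (S m).1.1 a = (S k).1.1 a := by
    intro k m hkm a ha
    induction m, hkm using Nat.le_induction with
    | base => rfl
    | succ m hm ih =>
      rw [(hS m).2 a (hmem k m hm a ha), ih]
  have hξmem : ∀ i, ξ i ∈ (S (i + 1)).2 := by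
    intro i
    obtain ⟨⟨y, hy, -⟩, -⟩ := hS i
    rw [hy]; simp
  -- the limit map
  have hlip : ∀ k z z', ‖F ((S k).1.1 z) - F ((S k).1.1 z')‖ ≤ ρ z z' := fun k z z' =>
    (F_lip _ _).trans ((S k).1.2 z z')
  have hcau : ∀ z, CauchySeq (fun k => F ((S k).1.1 z)) := by
    intro z
    rw [Metric.cauchySeq_iff']
    intro ε hε
    obtain ⟨i, hi⟩ := hξd.exists_dist_lt z (half_pos hε)
    refine ⟨i + 1, fun n hn => ?_⟩
    have h1 := hlip n z (ξ i)
    have h2 := hlip (i + 1) (ξ i) z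
    have h3 := hfix (i + 1) n hn (ξ i) (hξmem i)
    have h4 := hρ.le_dist z (ξ i)
    rw [hρ.comm (ξ i) z] at h2
    rw [h3] at h1
    rw [dist_eq_norm]
    have h5 := norm_sub_le_norm_sub_add_norm_sub (F ((S n).1.1 z)) (F ((S (i + 1)).1.1 (ξ i)))
      (F ((S (i + 1)).1.1 z))
    linarith
  choose f hf using fun z => cauchySeq_tendsto_of_complete (hcau z)
  have hflip : ∀ z z', ‖f z - f z'‖ ≤ ρ z z' := fun z z' =>
    le_of_tendsto ((hf z).sub (hf z')).norm (Eventually.of_forall fun k => hlip k z z')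
  have hfval : ∀ k, ∀ a ∈ (S k).2, f a = F ((S k).1.1 a) := by
    intro k a ha
    refine tendsto_nhds_unique (hf a) ?_
    refine tendsto_const_nhds.congr' ?_
    filter_upwards [eventually_ge_atTop k] with m hm
    rw [hfix k m hm a ha]
  have hfc : Continuous f := by
    refine (LipschitzWith.of_dist_le_mul (K := 1) fun x y => ?_).continuous
    rw [dist_eq_norm, NNReal.coe_one, one_mul]
    exact (hflip x y).trans (hρ.le_dist x y)
  -- steps within the union of the lists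
  set U : Set X := {a | ∃ k, a ∈ (S k).2} with hU
  have hstep : ∀ a ∈ U, ∀ j n : ℕ, ∃ y ∈ U,
      dist a y ≤ (D + 1 / ((n : ℝ) + 1)) * (‖η j - f a‖ + 1 / ((n : ℝ) + 1)) ∧ f y = η j := by
    rintro a ⟨k0, ha⟩ j n
    obtain ⟨l, hl, hla⟩ := List.getElem_of_mem ha
    set k := Nat.pair (Nat.pair l (Nat.pair j n)) k0 with hk
    have hk0 : k0 ≤ k := Nat.right_le_pair _ _
    obtain ⟨⟨y, hy1, hy2, hy3⟩, -⟩ := hS k
    obtain ⟨l', hl'⟩ := hgrow k0 k hk0
    have e1 : (Nat.unpair (Nat.unpair k).1).1 = l := by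
      rw [hk, Nat.unpair_pair]; simp only; rw [Nat.unpair_pair]
    have e2 : (Nat.unpair (Nat.unpair (Nat.unpair k).1).2).1 = j := by
      rw [hk, Nat.unpair_pair]; simp only; rw [Nat.unpair_pair]; simp only; rw [Nat.unpair_pair]
    have e3 : (Nat.unpair (Nat.unpair (Nat.unpair k).1).2).2 = n := by
      rw [hk, Nat.unpair_pair]; simp only; rw [Nat.unpair_pair]; simp only; rw [Nat.unpair_pair]
    rw [e1, e2, e3] at hy2
    rw [e2] at hy3
    have e4 : (S k).2.getD l (ξ 0) = a := by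
      rw [hl', List.getD_append _ _ _ _ hl, List.getD_eq_getElem _ _ hl, hla]
    rw [e4, ← hfval k a (hmem k0 k hk0 a ha)] at hy2
    have hyS : y ∈ (S (k + 1)).2 := by rw [hy1]; simp
    exact ⟨y, ⟨k + 1, hyS⟩, hy2, by rw [hfval (k + 1) y hyS, hy3]⟩
  have hstep' : ∀ a ∈ U, ∀ w : Y, ∀ δ > 0, ∃ y ∈ U, dist a y ≤ D * ‖w - f a‖ + δ ∧
      ‖f y - w‖ < δ := by
    intro a ha w δ hδ
    set s := ‖w - f a‖ with hs
    have hs0 : 0 ≤ s := norm_nonneg _
    set e : ℝ := min (1 / 2) (min (δ / 2) (δ / (s + 2 * D + 2))) with he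
    have hsD : 0 < s + 2 * D + 2 := by linarith
    have he0 : 0 < e := by
      refine lt_min (by norm_num) (lt_min (by linarith) (div_pos hδ hsD))
    have he1 : e ≤ 1 / 2 := min_le_left _ _
    have he2 : e ≤ δ / 2 := (min_le_right _ _).trans (min_le_left _ _)
    have he3 : e ≤ δ / (s + 2 * D + 2) := (min_le_right _ _).trans (min_le_right _ _)
    rw [le_div_iff₀ hsD] at he3
    obtain ⟨j, hj⟩ := hηd.exists_dist_lt w he0
    obtain ⟨n, hn⟩ := exists_nat_one_div_lt he0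
    obtain ⟨y, hyU, hy1, hy2⟩ := hstep a ha j n
    refine ⟨y, hyU, ?_, ?_⟩
    · rw [dist_eq_norm, norm_sub_rev] at hj
      have h1 : ‖η j - f a‖ ≤ s + e := by
        have := norm_sub_le_norm_sub_add_norm_sub (η j) w (f a)
        linarith
      have h2 : (0 : ℝ) < 1 / ((n : ℝ) + 1) := by positivity
      have h3 : (D + 1 / ((n : ℝ) + 1)) * (‖η j - f a‖ + 1 / ((n : ℝ) + 1)) ≤
          (D + e) * ((s + e) + e) := by
        apply mul_le_mul (by linarith) (by linarith) _ (by linarith)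
        have := norm_nonneg (η j - f a)
        linarith
      nlinarith
    · rw [hy2, ← dist_eq_norm, dist_comm]
      linarith
  have hfinal : ∀ x w, ∀ δ > 0, ∃ z, dist x z ≤ D * ‖w - f x‖ + δ ∧ f z = w := by
    intro x w δ hδ
    set e : ℝ := δ / (D + 2) with he
    have hD2 : 0 < D + 2 := by linarith
    have he0 : 0 < e := div_pos hδ hD2
    have heδ : e * (D + 2) = δ := by rw [he]; field_simp
    obtain ⟨i, hi⟩ := hξd.exists_dist_lt x he0
    obtain ⟨z, hz1, hz2⟩ := iterate f hfc U hD.le hstep' ⟨i + 1, hξmem i⟩ w he0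
    refine ⟨z, ?_, hz2⟩
    have h1 := dist_triangle x (ξ i) z
    have h2 : ‖w - f (ξ i)‖ ≤ ‖w - f x‖ + e := by
      have h3 := norm_sub_le_norm_sub_add_norm_sub w (f x) (f (ξ i))
      have h4 := (hflip x (ξ i)).trans (hρ.le_dist x (ξ i))
      linarith
    have h3 : D * ‖w - f (ξ i)‖ ≤ D * (‖w - f x‖ + e) := mul_le_mul_of_nonneg_left h2 hD.le
    nlinarith
  refine ⟨f, hflip, fun x ε hε w hw => ?_⟩
  rw [mem_ball_iff_norm, lt_div_iff₀ hD] at hw
  obtain ⟨z, hz1, hz2⟩ := hfinal x w ((ε - ‖w - f x‖ * D) / 2) (by linarith)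
  refine ⟨z, ?_, hz2⟩
  rw [mem_ball, dist_comm]
  nlinarith

end Pool.Agent.H362O
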