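import Pool.Agent.H362O.Fresh

/-!
# Functions with everywhere splitting superlevel sets

(Helper file for MP_df3c4e_an.)
-/

set_option autoImplicit false

open Set Filter Topology Metric TopologicalSpace

namespace Pool.Agent.H362O

/-- At every point `x` and at arbitrarily small scales `r`, the function `P` can be raised by `r` at
cost `C * r` in two ways which lie in different path components of `{P > P x + θ * r}`. -/
def Splits {X : Type*} [PseudoMetricSpace X] (C θ : ℝ) (P : X → ℝ) : Prop :=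
  ∀ x, ∀ δ > 0, ∃ r, 0 < r ∧ r < δ ∧ ∃ y1 y2, dist x y1 ≤ C * r ∧ dist x y2 ≤ C * r ∧
    P x + r ≤ P y1 ∧ P x + r ≤ P y2 ∧ ¬ JoinedIn {z | P x + θ * r < P z} y1 y2

/-- At every point `x` and at arbitrarily small scales `r`, the function `P` can be lowered by `r` at
cost `C * r`, and raised by `r` at cost `C * r` in infinitely many ways which lie in different path
components of `{P > P x}`. -/
def SplitsInf {X : Type*} [PseudoMetricSpace X] (C : ℝ) (P : X → ℝ) : Prop :=
  ∀ x, ∀ δ > 0, ∃ r, 0 < r ∧ r < δ ∧ (∃ y0, dist x y0 ≤ C * r ∧ P y0 ≤ P x - r) ∧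
    ∃ y : ℕ → X, (∀ i, dist x (y i) ≤ C * r ∧ P x + r ≤ P (y i)) ∧
      ∀ i j, i ≠ j → ¬ JoinedIn {z | P x < P z} (y i) (y j)

lemma SplitsInf.splits {X : Type*} [PseudoMetricSpace X] {C : ℝ} {P : X → ℝ}
    (h : SplitsInf C P) : Splits C 0 P := by
  intro x δ hδ
  obtain ⟨r, hr0, hr, -, y, hy, hj⟩ := h x δ hδ
  refine ⟨r, hr0, hr, y 0, y 1, (hy 0).1, (hy 1).1, (hy 0).2, (hy 1).2, ?_⟩
  rw [zero_mul, add_zero]
  exact hj 0 1 (by norm_num)

lemma continuous_of_le {X : Type*} [PseudoMetricSpace X] {P : X → ℝ}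
    (h : ∀ x y, P x - P y ≤ dist x y) : Continuous P :=
  (LipschitzWith.of_le_add (f := P) fun x y => by have := h x y; linarith).continuous

lemma not_joined {X : Type*} [PseudoMetricSpace X] {ρ : X → X → ℝ} {P : X → ℝ}
    (hT : IsTree ρ P) {h : ℝ} {y1 y2 : X} (hm : P y1 + P y2 - ρ y1 y2 ≤ 2 * h) :
    ¬ JoinedIn {z | h < P z} y1 y2 := by
  rintro ⟨γ, hγ⟩
  have hPc : Continuous P := continuous_of_le fun x y => (hT.lip x y).trans (hT.pm.le_dist x y)
  have hρc : ∀ z, Continuous (ρ z) := fun z => continuous_of_le fun x y => by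
    have h1 := hT.pm.tri z y x
    have h2 := hT.pm.le_dist y x
    rw [dist_comm] at h2
    linarith
  have hopen : ∀ z, IsOpen {w | 2 * h < P z + P w - ρ z w} := fun z =>
    isOpen_lt continuous_const ((continuous_const.add hPc).sub (hρc z))
  set U1 : Set X := {w | 2 * h < P y1 + P w - ρ y1 w} with hU1
  set V1 : Set X := ⋃ z ∈ {z | h < P z ∧ P y1 + P z - ρ y1 z ≤ 2 * h},
    {w | 2 * h < P z + P w - ρ z w} with hV1
  have hV1o : IsOpen V1 := isOpen_biUnion fun z _ => hopen z
  have hdisj : Disjoint U1 V1 := by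
    rw [Set.disjoint_left]
    intro w hw hw'
    rw [hV1, mem_iUnion₂] at hw'
    obtain ⟨z, hz, hzw⟩ := hw'
    have hz1 : h < P z ∧ P y1 + P z - ρ y1 z ≤ 2 * h := hz
    have hzw' : 2 * h < P z + P w - ρ z w := hzw
    have hw1 : 2 * h < P y1 + P w - ρ y1 w := hw
    have h1 := hT.ultra y1 w z
    rw [hT.pm.comm w z, add_comm (P w) (P z)] at h1
    have h2 := lt_of_lt_of_le (lt_min hw1 hzw') h1
    linarith [hz1.2]
  have hcov : range γ ⊆ U1 ∪ V1 := by
    rintro _ ⟨t, rfl⟩
    have ht : h < P (γ t) := hγ t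
    rcases lt_or_ge (2 * h) (P y1 + P (γ t) - ρ y1 (γ t)) with h1 | h1
    · exact Or.inl h1
    · right
      rw [hV1, mem_iUnion₂]
      refine ⟨γ t, ⟨ht, h1⟩, ?_⟩
      change 2 * h < P (γ t) + P (γ t) - ρ (γ t) (γ t)
      rw [hT.pm.self]; linarith
  have h0 : h < P y1 := by have := hγ 0; rw [γ.source] at this; exact this
  have hne : (range γ ∩ U1).Nonempty := by
    refine ⟨y1, ⟨0, γ.source⟩, ?_⟩
    change 2 * h < P y1 + P y1 - ρ y1 y1
    rw [hT.pm.self]; linarith
  have hsub := IsPreconnected.subset_left_of_subset_union (hopen y1) hV1o hdisj hcov hne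
    (isPreconnected_range γ.continuous)
  have h2 : y2 ∈ U1 := hsub ⟨1, γ.target⟩
  have h3 : 2 * h < P y1 + P y2 - ρ y1 y2 := h2
  linarith

lemma MeetSplits.splitsInf {X : Type*} [PseudoMetricSpace X] {ρ : X → X → ℝ} {P : X → ℝ}
    (hT : IsTree ρ P) {C : ℝ} (h : MeetSplits C ρ P) : SplitsInf C P := by
  intro x δ hδ
  obtain ⟨r, hr0, hr, h0, y, hy, hm⟩ := h x δ hδ
  refine ⟨r, hr0, hr, h0, y, hy, fun i j hij => ?_⟩
  rcases lt_or_gt_of_ne hij with h1 | h1
  · exact not_joined hT (hm i j h1)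
  · exact fun hj => not_joined hT (hm j i h1) hj.symm

section merge

variable {E : Type*} [NormedAddCommGroup E] [NormedSpace ℝ E]

/-- Heights at which two points are joined. -/
def jSet (P : E → ℝ) (u v : E) : Set ℝ := {h | JoinedIn {z | h < P z} u v}

/-- Merging height. -/
noncomputable def mh (P : E → ℝ) (u v : E) : ℝ := sSup (jSet P u v)

variable {P : E → ℝ}

lemma jSet_bdd (u v : E) : BddAbove (jSet P u v) := by
  refine ⟨P u, fun h hh => ?_⟩
  have : h < P u := hh.source_mem
  exact this.le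

lemma mem_jSet (hP : ∀ x y, P x - P y ≤ dist x y) {u v : E} {h : ℝ}
    (hh : h < (P u + P v - dist u v) / 2) : h ∈ jSet P u v := by
  apply JoinedIn.of_segment_subset
  intro z hz
  change h < P z
  have h1 := hP u z
  have h2 := hP v z
  have h3 : dist u z + dist z v = dist u v := dist_add_dist_of_mem_segment hz
  rw [dist_comm z v] at h3
  linarith

lemma jSet_ne (hP : ∀ x y, P x - P y ≤ dist x y) (u v : E) : (jSet P u v).Nonempty :=
  ⟨(P u + P v - dist u v) / 2 - 1, mem_jSet hP (by linarith)⟩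

lemma le_mh {u v : E} {h : ℝ} (hh : h ∈ jSet P u v) : h ≤ mh P u v := le_csSup (jSet_bdd u v) hh

lemma half_le_mh (hP : ∀ x y, P x - P y ≤ dist x y) (u v : E) :
    (P u + P v - dist u v) / 2 ≤ mh P u v :=
  le_of_forall_lt fun _ hh => by
    obtain ⟨h', h1, h2⟩ := exists_between hh
    exact h1.trans_le (le_mh (mem_jSet hP h2))

lemma mh_le_left (hP : ∀ x y, P x - P y ≤ dist x y) (u v : E) : mh P u v ≤ P u :=
  csSup_le (jSet_ne hP u v) fun h hh => by
    have : h < P u := hh.source_mem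
    exact this.le

lemma mh_comm (u v : E) : mh P u v = mh P v u := by
  unfold mh
  congr 1
  ext h
  exact ⟨fun hh => hh.symm, fun hh => hh.symm⟩

lemma mh_le_right (hP : ∀ x y, P x - P y ≤ dist x y) (u v : E) : mh P u v ≤ P v := by
  rw [mh_comm]; exact mh_le_left hP v u

lemma mh_self (hP : ∀ x y, P x - P y ≤ dist x y) (u : E) : mh P u u = P u := by
  apply le_antisymm (mh_le_left hP u u)
  have := half_le_mh hP u u
  rw [dist_self] at this
  linarith

lemma joined_of_lt_mh {u v : E} {h : ℝ} (hP : ∀ x y, P x - P y ≤ dist x y) (hh : h < mh P u v) :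
    JoinedIn {z | h < P z} u v := by
  obtain ⟨h', h1, h2⟩ := exists_lt_of_lt_csSup (jSet_ne hP u v) hh
  exact JoinedIn.mono h1 fun z hz => lt_trans h2 hz

lemma mh_ultra (hP : ∀ x y, P x - P y ≤ dist x y) (u v w : E) :
    min (mh P u v) (mh P v w) ≤ mh P u w := by
  apply le_of_forall_lt
  intro h hh
  obtain ⟨h', h1, h2⟩ := exists_between hh
  have j1 := joined_of_lt_mh hP (lt_of_lt_of_le h2 (min_le_left _ _))
  have j2 := joined_of_lt_mh hP (lt_of_lt_of_le h2 (min_le_right _ _))
  exact h1.trans_le (le_mh (j1.trans j2))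

/-- Climbing without leaving a component of a superlevel set. -/
lemma climbP [CompleteSpace E] (hP : ∀ x y, P x - P y ≤ dist x y) {C θ : ℝ} (hC : 0 < C)
    (hs : Splits C θ P) {h : ℝ} {z : E} (hz : h < P z) {t : ℝ} (ht : 0 < t) {C' : ℝ} (hC' : C < C') :
    ∃ y, JoinedIn {w | h < P w} z y ∧ dist z y ≤ C' * t ∧ P z + t ≤ P y := by
  obtain ⟨y, hyW, hy1, hy2⟩ := climb (φ := fun (_ : Unit) x => P x) (fun _ x y => hP x y)
    (A := univ) finite_univ ⟨(), mem_univ _⟩
    (W := {y | JoinedIn {w | h < P w} z y ∧ P z ≤ P y}) (κ := P z - h) (by linarith)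
    (by
      rintro y ⟨hy1, hy2⟩ y' hy' hd
      have h1 : P y ≤ P y' := hy' () (mem_univ _)
      refine ⟨hy1.trans (mem_jSet hP ?_), hy2.trans h1⟩
      linarith)
    (D1 := (C + C') / 2) (by linarith)
    (by
      rintro y - δ hδ
      obtain ⟨r, hr0, hr, y1, -, d1, -, p1, -, -⟩ := hs y (δ / C) (div_pos hδ hC)
      rw [lt_div_iff₀ hC] at hr
      have h1 := hP y1 y
      rw [dist_comm] at h1
      refine ⟨y1, by linarith, by linarith, fun _ _ => ?_⟩
      have h2 : dist y y1 / ((C + C') / 2) ≤ r := by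
        rw [div_le_iff₀ (by linarith)]
        have : C * r ≤ (C + C') / 2 * r := mul_le_mul_of_nonneg_right (by linarith) hr0.le
        linarith
      linarith)
    (D' := C') (by linarith) (x := z) ⟨JoinedIn.refl hz, le_rfl⟩ ht
  exact ⟨y, hyW.1, hy1, hy2 () (mem_univ _)⟩

theorem pair_of_splits [CompleteSpace E] (hP : ∀ x y, P x - P y ≤ dist x y) {C θ : ℝ} (hC : 0 < C)
    (hθ0 : 0 ≤ θ) (hθ1 : θ < 1) (hs : Splits C θ P) :
    ∃ ρ : E → E → ℝ, IsPM ρ ∧ Hyp ρ ∧ PairLoc (C * (C + 4)) ρ := by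
  set ρ : E → E → ℝ := fun u v => P u + P v - 2 * mh P u v with hρ
  have hρv : ∀ u v, ρ u v = P u + P v - 2 * mh P u v := fun _ _ => rfl
  have hPM : IsPM ρ := by
    refine ⟨fun x => ?_, fun x y => ?_, fun x y z => ?_, fun x y => ?_⟩
    · rw [hρv, mh_self hP]; ring
    · rw [hρv, hρv, mh_comm x y]; ring
    · rw [hρv, hρv, hρv]
      have h1 := mh_ultra hP x y z
      have h2 := mh_le_right hP x y
      have h3 := mh_le_left hP y z
      rcases min_le_iff.1 h1 with h1 | h1 <;> linarith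
    · rw [hρv]
      have := half_le_mh hP x y
      linarith
  have hT : IsTree ρ P := by
    refine ⟨hPM, fun x y => ?_, fun x y z => ?_⟩
    · rw [hρv]
      have := mh_le_right hP x y
      linarith
    · have h1 := mh_ultra hP x y z
      rw [hρv, hρv, hρv]
      rcases min_le_iff.1 h1 with h1 | h1
      · apply min_le_iff.2; left; linarith
      · apply min_le_iff.2; right; linarith
  refine ⟨ρ, hPM, hT.hyp, ?_⟩
  intro x a b δ hδ D' hD'
  have hCC : 0 < C * (C + 4) := by positivity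
  have hD'0 : 0 < D' := hCC.trans hD'
  -- constants
  set ε : ℝ := min 1 ((D' - C * (C + 4)) / (2 * C + 4)) with hε
  have hε0 : 0 < ε := lt_min one_pos (div_pos (by linarith) (by linarith))
  have hε1 : ε ≤ 1 := min_le_left _ _
  have hε2 : ε * (2 * C + 4) ≤ D' - C * (C + 4) := by
    have : ε ≤ (D' - C * (C + 4)) / (2 * C + 4) := min_le_right _ _
    rwa [le_div_iff₀ (by linarith)] at this
  -- a small scale
  have hsmall : ∀ c, ∃ η > 0, mh P x c < P x → D' * η ≤ P x - mh P x c := by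
    intro c
    rcases lt_or_ge (mh P x c) (P x) with h | h
    · refine ⟨(P x - mh P x c) / D', div_pos (by linarith) hD'0, fun _ => ?_⟩
      rw [mul_div_cancel₀ _ hD'0.ne']
    · exact ⟨1, one_pos, fun h' => absurd h (not_le.2 h')⟩
  obtain ⟨ηa, hηa0, hηa⟩ := hsmall a
  obtain ⟨ηb, hηb0, hηb⟩ := hsmall b
  obtain ⟨r, hr0, hr, y1, y2, d1, d2, p1, p2, hnj⟩ :=
    hs x (min (δ / D') (min ηa ηb)) (lt_min (div_pos hδ hD'0) (lt_min hηa0 hηb0))
  have hrδ : D' * r < δ := by
    have := lt_of_lt_of_le hr (min_le_left _ _)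
    rw [lt_div_iff₀ hD'0] at this
    linarith
  have hra : r < ηa := lt_of_lt_of_le hr ((min_le_right _ _).trans (min_le_left _ _))
  have hrb : r < ηb := lt_of_lt_of_le hr ((min_le_right _ _).trans (min_le_right _ _))
  have hθr : θ * r < r := by nlinarith
  have hθr0 : 0 ≤ θ * r := mul_nonneg hθ0 hr0.le
  -- points which are not above `x`
  have hN : ∀ y, dist x y ≤ D' * r → P x + r ≤ P y → ∀ c η, r < η →
      (mh P x c < P x → D' * η ≤ P x - mh P x c) → mh P x c < P x → ρ x c + r ≤ ρ y c := by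
    intro y hy hPy c η hη hc hlt
    have h1 := hc hlt
    have h2 := half_le_mh hP x y
    have h3 := mh_ultra hP x y c
    have h4 : D' * r < D' * η := mul_lt_mul_of_pos_left hη hD'0
    have h5 : mh P y c ≤ mh P x c := by
      rcases min_le_iff.1 h3 with h6 | h6
      · linarith
      · exact h6
    rw [hρv, hρv]; linarith
  have hB : ∀ y c h, 2 * h ≤ P y + P x - r → P x ≤ mh P x c → ¬ JoinedIn {z | h < P z} y c →
      ρ x c + r ≤ ρ y c := by
    intro y c h hh hc hj
    have h1 : mh P y c ≤ h := by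
      by_contra hcon
      push Not at hcon
      exact hj (joined_of_lt_mh hP hcon)
    rw [hρv, hρv]; linarith
  -- it is enough to find a point with controlled merging heights
  have hfin : ∀ y ha hb, dist x y ≤ D' * r → P x + r ≤ P y →
      2 * ha ≤ P y + P x - r → 2 * hb ≤ P y + P x - r →
      ¬ JoinedIn {z | ha < P z} y a → ¬ JoinedIn {z | hb < P z} y b →
      ∃ y : E, 0 < dist x y ∧ dist x y < δ ∧
        ρ x a + dist x y / D' ≤ ρ y a ∧ ρ x b + dist x y / D' ≤ ρ y b := by
    intro y ha hb hd hp h1 h2 j1 j2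
    have h3 : r ≤ dist x y := by
      have e2 := hP y x
      rw [dist_comm] at e2
      linarith
    have h4 : dist x y / D' ≤ r := by
      rw [div_le_iff₀ hD'0]; linarith
    refine ⟨y, by linarith, by linarith, ?_, ?_⟩
    · rcases lt_or_ge (mh P x a) (P x) with h | h
      · have := hN y hd hp a ηa hra hηa h
        linarith
      · have := hB y a ha h1 h j1
        linarith
    · rcases lt_or_ge (mh P x b) (P x) with h | h
      · have := hN y hd hp b ηb hrb hηb h
        linarith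
      · have := hB y b hb h2 h j2
        linarith
  have hbound : C * r + ε * r + (C + ε) * ((C + 3) * r) ≤ D' * r := by
    have : C + ε + (C + ε) * (C + 3) ≤ D' := by nlinarith
    nlinarith
  set h1 : ℝ := P x + θ * r with hh1
  set t : ℝ := (C + 3) * r with ht
  have ht0 : 0 < t := by positivity
  have htr : t = C * r + 3 * r := by rw [ht]; ring
  -- a point joined to none of `a`, `b`
  have case1 : ∀ y, dist x y ≤ C * r → P x + r ≤ P y → ¬ JoinedIn {z | h1 < P z} y a →
      ¬ JoinedIn {z | h1 < P z} y b → ∃ y : E, 0 < dist x y ∧ dist x y < δ ∧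
        ρ x a + dist x y / D' ≤ ρ y a ∧ ρ x b + dist x y / D' ≤ ρ y b := by
    intro y hd hp ja jb
    obtain ⟨w, hw1, hw2, hw3⟩ := climbP hP hC hs (h := h1) (z := y) (by rw [hh1]; linarith) ht0
      (C' := C + ε) (by linarith)
    have hCr : 0 < C * r := mul_pos hC hr0
    have hεr : 0 < ε * r := mul_pos hε0 hr0
    refine hfin w h1 h1 ?_ ?_ ?_ ?_ (fun h => ja (hw1.trans h)) (fun h => jb (hw1.trans h))
    · have := dist_triangle x y w
      linarith
    · linarith
    · rw [hh1]; linarith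
    · rw [hh1]; linarith
  -- a point joined to `c1`, while the other one is joined to `c2`
  have case2 : ∀ u v c1 c2, dist x u ≤ C * r → P x + r ≤ P u →
      ¬ JoinedIn {z | h1 < P z} u v → JoinedIn {z | h1 < P z} v c2 →
      ∃ y hc1 hc2, dist x y ≤ D' * r ∧ P x + r ≤ P y ∧ 2 * hc1 ≤ P y + P x - r ∧
        2 * hc2 ≤ P y + P x - r ∧ ¬ JoinedIn {z | hc1 < P z} y c1 ∧
        ¬ JoinedIn {z | hc2 < P z} y c2 := by
    intro u v c1 c2 hd hp huv hvc
    have hCr : 0 < C * r := mul_pos hC hr0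
    have hεr : 0 < ε * r := mul_pos hε0 hr0
    obtain ⟨r1, hr10, hr1, z1, z2, e1, e2, q1, q2, hnz⟩ :=
      hs u (min (ε * r / C) ((r - θ * r) / C))
        (lt_min (div_pos hεr hC) (div_pos (by linarith) hC))
    have hr1a : C * r1 < ε * r := by
      have := lt_of_lt_of_le hr1 (min_le_left _ _)
      rw [lt_div_iff₀ hC] at this
      linarith
    have hr1b : C * r1 < r - θ * r := by
      have := lt_of_lt_of_le hr1 (min_le_right _ _)
      rw [lt_div_iff₀ hC] at this
      linarith
    have hC1 : r1 ≤ C * r1 := by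
      have e3 := hP z1 u
      rw [dist_comm] at e3
      linarith
    have hθr1 : θ * r1 < r1 := by nlinarith
    have hθr10 : 0 ≤ θ * r1 := mul_nonneg hθ0 hr10.le
    have hεr' : ε * r ≤ r := by nlinarith
    have hPu : P u - P x ≤ C * r := by
      have e3 := hP u x
      rw [dist_comm] at e3
      linarith
    have key : ∀ z, dist u z ≤ C * r1 → P u + r1 ≤ P z →
        ¬ JoinedIn {w | P u + θ * r1 < P w} z c1 →
        ∃ y hc1 hc2, dist x y ≤ D' * r ∧ P x + r ≤ P y ∧ 2 * hc1 ≤ P y + P x - r ∧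
        2 * hc2 ≤ P y + P x - r ∧ ¬ JoinedIn {z | hc1 < P z} y c1 ∧
        ¬ JoinedIn {z | hc2 < P z} y c2 := by
      intro z hz1 hz2 hz3
      obtain ⟨y, hy1, hy2, hy3⟩ := climbP hP hC hs (h := P u + θ * r1) (z := z) (by linarith) ht0
        (C' := C + ε) (by linarith)
      refine ⟨y, P u + θ * r1, h1, ?_, ?_, ?_, ?_, fun h => hz3 (hy1.trans h), fun h => ?_⟩
      · have t1 := dist_triangle x u y
        have t2 := dist_triangle u z y
        linarith
      · linarith
      · linarith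
      · rw [hh1]; linarith
      · -- `u` is joined to `z`, hence to `y`, in `{P > h1}`
        have j1 : JoinedIn {w | h1 < P w} u z := mem_jSet hP (by rw [hh1]; linarith)
        have j2 : JoinedIn {w | h1 < P w} z y := hy1.mono fun w hw => by
          have hw' : P u + θ * r1 < P w := hw
          change h1 < P w
          rw [hh1]; linarith
        exact huv (((j1.trans j2).trans h).trans hvc.symm)
    by_cases hz : JoinedIn {w | P u + θ * r1 < P w} z1 c1
    · exact key z2 e2 q2 fun h => hnz (hz.trans h.symm)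
    · exact key z1 e1 q1 hz
  by_cases ja1 : JoinedIn {z | h1 < P z} y1 a
  · by_cases jb2 : JoinedIn {z | h1 < P z} y2 b
    · obtain ⟨y, hc1, hc2, w1, w2, w3, w4, w5, w6⟩ := case2 y1 y2 a b d1 p1 hnj jb2
      exact hfin y hc1 hc2 w1 w2 w3 w4 w5 w6
    · exact case1 y2 d2 p2 (fun h => hnj (ja1.trans h.symm)) jb2
  · by_cases jb1 : JoinedIn {z | h1 < P z} y1 b
    · by_cases ja2 : JoinedIn {z | h1 < P z} y2 a
      · obtain ⟨y, hc1, hc2, w1, w2, w3, w4, w5, w6⟩ := case2 y1 y2 b a d1 p1 hnj ja2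
        exact hfin y hc2 hc1 w1 w2 w4 w3 w6 w5
      · exact case1 y2 d2 p2 ja2 (fun h => hnj (jb1.trans h.symm))
    · exact case1 y1 d1 p1 ja1 jb1

end merge

end Pool.Agent.H362O
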